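import Pool.Agent.Helper57.CW.Final

/-!
# `(P_k)` for sets of constant width, `2 ≤ k ≤ 9`, and for self-complementary sets, `2 ≤ k ≤ 6`

The statements `(P_3)` and `(P_7)` are false. Here it is proved that for every `k` from `2` to
`9` the statement `(P_k)` is true for families of sets of constant width: every closed disk which
accommodates `k` disks of perimeter `1` accommodates every family of `k` convex sets of
perimeter `1` each of which has constant width. For `k ≤ 6` it is enough that each set is
self-complementary: its Minkowski sum with some congruent copy of it (rotated or reflected) is a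
disk.
-/

namespace Pool.Agent.Results.MP_0e91ac_co.ConstantWidth

open Pool.Agent.Helper16.Disk7 Pool.Agent.Helper57.CW Metric

/-- For `2 ≤ k ≤ 9`, every closed disk which accommodates `k` disks of perimeter `1` accommodates
every family of `k` convex sets of perimeter `1` each of which has constant width or, in the case
`k ≤ 6`, is self-complementary. -/
theorem result (k : ℕ) (h2 : 2 ≤ k) (h9 : k ≤ 9) (c : ℂ) (R : ℝ)
    (h : Accommodates (closedBall c R)
      (fun _ : Fin k => closedBall (0 : ℂ) (1 / (2 * Real.pi))))
    (K : Fin k → Set ℂ)
    (hK : ∀ i, IsUnitConvexSet (K i) ∧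
      (ConstantWidth (K i) ∨ (k ≤ 6 ∧ SelfComplementary (K i)))) :
    Accommodates (closedBall c R) K :=
  final h2 h9 c R h K hK

end Pool.Agent.Results.MP_0e91ac_co.ConstantWidth
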