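import Pool.Agent.Helper69.FF.XMain
import Pool.Agent.Helper57.FL.Fin
import Pool.Agent.Helper69.GGM.TL
import Pool.Agent.Helper99.HZ.FP
import Pool.Agent.Helper57.KP.F2

open Filter Topology MeasureTheory
open Pool.Agent.Helper57.PC

namespace Pool.Agent.Results.MP_8958e8_nt.FormFactorBeyondOne

/-- The form factor of the zeros of zeta with ordinate in `[0,T]`:
`(T log T/2π)⁻¹ |∑_{0 ≤ γ ≤ T} m_ρ T^(x(ρ-1/2))|²`, the sum over the nontrivial zeros `ρ = β + iγ`, `m_ρ` the multiplicity. -/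
noncomputable def formFactor (T x : ℝ) : ℝ :=
  ‖∑ᶠ ρ ∈ zerosUpTo T, (mult ρ : ℂ) * (T : ℂ) ^ ((x : ℂ) * (ρ - 1 / 2))‖ ^ 2 / (T * Real.log T / (2 * Real.pi))

/-- The form factor of Baluyot, Goldston, Suriajaya and Turnage-Butterbaugh (on RH: Montgomery's):
`(T log T/2π)⁻¹ ∑∑ m_ρ m_ρ' T^(α(ρ-ρ')) 4/(4-(ρ-ρ')²)`, both sums over the nontrivial zeros with ordinate in `[0,T]`. -/
noncomputable def pairFormFactor (T α : ℝ) : ℂ :=
  (∑ᶠ ρ ∈ zerosUpTo T, ∑ᶠ ρ' ∈ zerosUpTo T, (mult ρ : ℂ) * (mult ρ' : ℂ) * (T : ℂ) ^ ((α : ℂ) * (ρ - ρ')) *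
    (4 / (4 - (ρ - ρ') ^ 2))) / ((T * Real.log T / (2 * Real.pi) : ℝ) : ℂ)

/-- The lower bound: `x` for `x ≤ 1`, `3/2 - x` for `1 < x ≤ 3/2`, `0` beyond. -/
noncomputable def lowerDensity (x : ℝ) : ℝ := if x ≤ 1 then x else max (3 / 2 - x) 0

/-- The Fejér kernel of width `t`, of integral one: `(1/t)(1-|x|/t)` for `|x| ≤ t`, `0` beyond. -/
noncomputable def fejer (t x : ℝ) : ℝ := max 0 (1 - |x| / t) / t

lemma lowerDensity_nonneg {x : ℝ} (hx : 0 ≤ x) : 0 ≤ lowerDensity x := by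
  unfold lowerDensity
  split_ifs
  · exact hx
  · exact le_max_right _ _

lemma lowerDensity_le_one (x : ℝ) : lowerDensity x ≤ 1 := by
  unfold lowerDensity
  split_ifs with h
  · exact h
  · push Not at h
    exact max_le (by linarith) (by norm_num)

lemma lowerDensity_meas : Measurable lowerDensity := by
  unfold lowerDensity
  refine Measurable.ite (measurableSet_Iic) measurable_id ?_
  exact (measurable_const.sub measurable_id).max measurable_const

/-- bounded measurable times continuous compactly supported is integrable -/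
lemma ld_int {w : ℝ → ℝ} (hw : Continuous w) {a b : ℝ} (ha : 0 < a) (hs : ∀ x, w x ≠ 0 → a ≤ x ∧ x ≤ b) :
    Integrable (fun x => lowerDensity x * w x ^ 2) := by
  have hcs : HasCompactSupport (fun x => w x ^ 2) := HasCompactSupport.intro (isCompact_Icc (a := a) (b := b)) fun x hx => by
    by_contra h
    exact hx (hs x fun h' => h (by rw [h']; ring))
  have hi : Integrable (fun x => w x ^ 2) := (hw.pow 2).integrable_of_hasCompactSupport hcs
  refine hi.mono' (lowerDensity_meas.aestronglyMeasurable.mul (hw.pow 2).aestronglyMeasurable) ?_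
  refine Filter.Eventually.of_forall fun x => ?_
  rw [Real.norm_eq_abs, abs_mul, abs_of_nonneg (sq_nonneg (w x))]
  by_cases hx : w x = 0
  · rw [hx]; simp
  · have h0 : 0 ≤ lowerDensity x := lowerDensity_nonneg (by linarith [(hs x hx).1])
    rw [abs_of_nonneg h0]
    exact mul_le_of_le_one_left (sq_nonneg _) (lowerDensity_le_one x)

/-- the two forms of the main term -/
lemma VV_eq {w : ℝ → ℝ} (hw : Continuous w) {a b : ℝ} (ha : 0 < a) (hs : ∀ x, w x ≠ 0 → a ≤ x ∧ x ≤ b) :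
    Pool.Agent.Helper69.FF.VV w = ∫ x in Set.Ioi (0:ℝ), lowerDensity x * w x ^ 2 := by
  have hint := ld_int hw ha hs
  have e1 : (Set.Ioi (0:ℝ)) = Set.Ioc 0 1 ∪ Set.Ioi 1 := (Set.Ioc_union_Ioi_eq_Ioi (by norm_num)).symm
  have e2 : (Set.Ioi (1:ℝ)) = Set.Ioc 1 (3/2) ∪ Set.Ioi (3/2) := (Set.Ioc_union_Ioi_eq_Ioi (by norm_num)).symm
  rw [e1, setIntegral_union (Set.Ioc_disjoint_Ioi le_rfl) measurableSet_Ioi hint.integrableOn hint.integrableOn, e2,
    setIntegral_union (Set.Ioc_disjoint_Ioi le_rfl) measurableSet_Ioi hint.integrableOn hint.integrableOn]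
  have z : ∫ x in Set.Ioi (3/2:ℝ), lowerDensity x * w x ^ 2 = 0 := by
    rw [setIntegral_congr_fun (g := fun _ => (0:ℝ)) measurableSet_Ioi]
    · simp
    · intro x hx
      have hx' : (3/2:ℝ) < x := hx
      show lowerDensity x * w x ^ 2 = 0
      have : lowerDensity x = 0 := by
        unfold lowerDensity
        rw [if_neg (by linarith), max_eq_right (by linarith)]
      rw [this, zero_mul]
  rw [z, add_zero]
  unfold Pool.Agent.Helper69.FF.VV
  rw [intervalIntegral.integral_of_le (by norm_num : (0:ℝ) ≤ 1), intervalIntegral.integral_of_le (by norm_num : (1:ℝ) ≤ 3/2)]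
  congr 1
  · refine setIntegral_congr_fun measurableSet_Ioc fun x hx => ?_
    show x * w x ^ 2 = lowerDensity x * w x ^ 2
    unfold lowerDensity
    rw [if_pos hx.2]
  · refine setIntegral_congr_fun measurableSet_Ioc fun x hx => ?_
    show (3/2 - x) * w x ^ 2 = lowerDensity x * w x ^ 2
    unfold lowerDensity
    rw [if_neg (by linarith [hx.1]), max_eq_left (by linarith [hx.2])]

lemma formFactor_eq (T x : ℝ) : formFactor T x = Pool.Agent.Helper57.FL.ff T x := by
  have h1 : ∑ᶠ ρ ∈ zerosUpTo T, (mult ρ : ℂ) * (T : ℂ) ^ ((x : ℂ) * (ρ - 1 / 2)) =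
      ∑ ρ ∈ Pool.Agent.Helper57.Zeta.Zf T, (Pool.Agent.Helper57.LH.mx ρ : ℂ) * (T : ℂ) ^ ((x : ℂ) * (ρ - 1 / 2)) := by
    have h2 : zerosUpTo T = ((Pool.Agent.Helper57.Zeta.Zf T : Finset ℂ) : Set ℂ) := by
      ext ρ
      rw [Finset.mem_coe, Pool.Agent.Helper57.Zeta.mem_Zf]
      rfl
    rw [h2, finsum_mem_coe_finset]
    refine Finset.sum_congr rfl fun ρ hρ => ?_
    have h3 := Pool.Agent.Helper69.GGM.tl_mx hρ
    rw [h3]
    push_cast
    rfl
  unfold formFactor Pool.Agent.Helper57.FL.ff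
  rw [h1]
  rw [div_eq_mul_inv, inv_div]
  ring

lemma pairFormFactor_eq (T α : ℝ) : pairFormFactor T α = Pool.Agent.Helper57.KP.bg T α := by
  have h2 : zerosUpTo T = ((Pool.Agent.Helper57.Zeta.Zf T : Finset ℂ) : Set ℂ) := by
    ext ρ
    rw [Finset.mem_coe, Pool.Agent.Helper57.Zeta.mem_Zf]
    rfl
  unfold pairFormFactor Pool.Agent.Helper57.KP.bg
  rw [h2, finsum_mem_coe_finset, div_eq_mul_inv, mul_comm]
  congr 1
  refine Finset.sum_congr rfl fun ρ _ => ?_
  rw [finsum_mem_coe_finset]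
  refine Finset.sum_congr rfl fun ρ' _ => ?_
  ring

/-- smooth bump equal to `1` on `[c + κ, d - κ]`, supported in `[c, d]` -/
lemma bump {c d κ : ℝ} (hκ : 0 < κ) (hcd : c + 2 * κ < d) : ∃ w : ℝ → ℝ, ContDiff ℝ (⊤ : ℕ∞) w ∧
    (∀ x, 0 ≤ w x ∧ w x ≤ 1) ∧ (∀ x, w x ≠ 0 → c ≤ x ∧ x ≤ d) ∧ ∀ x, c + κ ≤ x → x ≤ d - κ → w x = 1 := by
  set m : ℝ := (c + d) / 2 with hm
  have h1 : 0 < (d - c) / 2 - κ := by linarith
  have h2 : (d - c) / 2 - κ < (d - c) / 2 := by linarith
  let f : ContDiffBump m := ⟨(d - c) / 2 - κ, (d - c) / 2, h1, h2⟩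
  refine ⟨f, f.contDiff, fun x => ⟨f.nonneg, f.le_one⟩, ?_, ?_⟩
  · intro x hx
    have h3 : x ∈ Function.support f := hx
    rw [f.support_eq, Metric.mem_ball, Real.dist_eq] at h3
    have h4 := abs_lt.mp h3
    simp only [f] at h4
    constructor <;> linarith [h4.1, h4.2]
  · intro x h3 h4
    refine f.one_of_mem_closedBall ?_
    rw [Metric.mem_closedBall, Real.dist_eq]
    refine abs_le.mpr ?_
    simp only [f]
    constructor <;> linarith

open Pool.Agent.Helper57.FL Pool.Agent.Helper93.LP in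
lemma interval_form {a b : ℝ} (ha : 0 ≤ a) (hab : a < b) {ε : ℝ} (hε : 0 < ε) :
    ∀ᶠ T : ℝ in atTop, (∫ x in a..b, lowerDensity x) - ε ≤ ∫ x in a..b, ff T x := by
  obtain ⟨κ, hκ, hκ1, hκ2⟩ : ∃ κ : ℝ, 0 < κ ∧ 8 * κ ≤ ε ∧ 8 * κ ≤ b - a := by
    refine ⟨min (ε / 8) ((b - a) / 8), ?_, ?_, ?_⟩
    · exact lt_min (by linarith) (by linarith)
    · linarith [min_le_left (ε / 8) ((b - a) / 8)]
    · linarith [min_le_right (ε / 8) ((b - a) / 8)]
  obtain ⟨w, hws, hw01, hwsupp, hw1⟩ := bump (c := a + κ) (d := b - κ) hκ (by linarith)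
  have hWR : WR w (a + κ) (b - κ) := ⟨hws, by linarith, by linarith, hwsupp⟩
  have hSW : SW w (a + κ) (b - κ) := ⟨hws, by linarith, by linarith, hwsupp⟩
  have hwc : Continuous w := hws.continuous
  have hmain := Pool.Agent.Helper69.FF.main_zeros_gen (w := w) hWR (ε := ε / 2) (by linarith)
  have hldi : ∀ p q : ℝ, IntervalIntegrable lowerDensity volume p q := by
    intro p q
    refine (intervalIntegrable_const (c := 1 + |p| + |q|)).mono_fun lowerDensity_meas.aestronglyMeasurable ?_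
    refine (ae_restrict_iff' measurableSet_uIoc).mpr (Filter.Eventually.of_forall fun x hx => ?_)
    show ‖lowerDensity x‖ ≤ ‖(1 + |p| + |q|)‖
    rw [Real.norm_eq_abs, Real.norm_eq_abs, abs_of_nonneg (by positivity : (0:ℝ) ≤ 1 + |p| + |q|)]
    have hx' := Set.uIoc_subset_uIcc hx
    rw [Set.uIcc, Set.mem_Icc] at hx'
    have h1 : -(|p| + |q|) ≤ x := by
      have : -(|p| + |q|) ≤ min p q := le_min (by linarith [neg_abs_le p, abs_nonneg q]) (by linarith [neg_abs_le q, abs_nonneg p])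
      linarith [hx'.1]
    rw [abs_le]
    constructor
    · unfold lowerDensity
      split_ifs
      · linarith
      · linarith [le_max_right (3 / 2 - x) 0, abs_nonneg p, abs_nonneg q]
    · linarith [lowerDensity_le_one x, abs_nonneg p, abs_nonneg q]
  filter_upwards [hmain, eventually_ge_atTop (3 : ℝ)] with T h hT
  have hT0 : 0 < T := by linarith
  obtain ⟨p1, p2⟩ := ff_planch hSW hT
  have q1 : (1 / T) * ∫ t in (0:ℝ)..T, ‖GG T (fun x => (w x : ℂ)) t‖ ^ 2 ≤ ∫ x : ℝ, w x ^ 2 * ff T x := by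
    rw [← p2]
    refine mul_le_mul_of_nonneg_left ?_ (by positivity)
    rw [intervalIntegral.integral_of_le hT0.le]
    exact setIntegral_le_integral p1 (Filter.Eventually.of_forall fun t => by positivity)
  have hffc : Continuous (ff T) := ff_cont (by linarith)
  have q2 : ∫ x : ℝ, w x ^ 2 * ff T x ≤ ∫ x in a..b, ff T x := by
    have e : ∫ x : ℝ, w x ^ 2 * ff T x = ∫ x in a..b, w x ^ 2 * ff T x := by
      rw [intervalIntegral.integral_of_le hab.le, ← integral_indicator measurableSet_Ioc]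
      refine integral_congr_ae (Filter.Eventually.of_forall fun x => ?_)
      simp only
      by_cases hx : x ∈ Set.Ioc a b
      · rw [Set.indicator_of_mem hx]
      · rw [Set.indicator_of_notMem hx]
        have h0 : w x = 0 := by
          by_contra h0
          have h1 := hwsupp x h0
          exact hx ⟨by linarith [h1.1], by linarith [h1.2]⟩
        rw [h0]
        ring
    rw [e]
    refine intervalIntegral.integral_mono_on hab.le ?_ ?_ ?_
    · exact ((hwc.pow 2).mul hffc).intervalIntegrable _ _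
    · exact hffc.intervalIntegrable _ _
    · intro x _
      have h1 := hw01 x
      have h2 : w x ^ 2 ≤ 1 := pow_le_one₀ h1.1 h1.2
      have h3 := ff_nonneg (T := T) (by linarith) x
      nlinarith
  have q3 : (∫ x in a..b, lowerDensity x) - 4 * κ ≤ Pool.Agent.Helper69.FF.VV w := by
    have hint := ld_int hwc (by linarith : 0 < a + κ) hwsupp
    rw [VV_eq hwc (by linarith : 0 < a + κ) hwsupp]
    have s1 : ∫ x in (a + 2 * κ)..(b - 2 * κ), lowerDensity x ≤ ∫ x in Set.Ioi (0:ℝ), lowerDensity x * w x ^ 2 := by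
      rw [intervalIntegral.integral_of_le (by linarith)]
      have e : ∫ x in Set.Ioc (a + 2 * κ) (b - 2 * κ), lowerDensity x =
          ∫ x in Set.Ioc (a + 2 * κ) (b - 2 * κ), lowerDensity x * w x ^ 2 := by
        refine setIntegral_congr_fun measurableSet_Ioc fun x hx => ?_
        show lowerDensity x = lowerDensity x * w x ^ 2
        rw [hw1 x (by linarith [hx.1]) (by linarith [hx.2])]
        ring
      rw [e]
      refine setIntegral_mono_set hint.integrableOn ?_ (LE.le.eventuallyLE fun x hx => ?_)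
      · refine (ae_restrict_mem measurableSet_Ioi).mono fun x hx => ?_
        have hx0 : (0:ℝ) < x := hx
        exact mul_nonneg (lowerDensity_nonneg hx0.le) (sq_nonneg _)
      · exact (show (0:ℝ) < x by linarith [hx.1])
    have s2 : ∫ x in a..(a + 2 * κ), lowerDensity x ≤ 2 * κ := by
      have := intervalIntegral.integral_mono_on (μ := volume) (by linarith : a ≤ a + 2 * κ) (hldi _ _)
        (intervalIntegrable_const (c := (1:ℝ))) (fun x _ => lowerDensity_le_one x)
      rw [intervalIntegral.integral_const, smul_eq_mul] at this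
      linarith
    have s3 : ∫ x in (b - 2 * κ)..b, lowerDensity x ≤ 2 * κ := by
      have := intervalIntegral.integral_mono_on (μ := volume) (by linarith : b - 2 * κ ≤ b) (hldi _ _)
        (intervalIntegrable_const (c := (1:ℝ))) (fun x _ => lowerDensity_le_one x)
      rw [intervalIntegral.integral_const, smul_eq_mul] at this
      linarith
    have s4 := intervalIntegral.integral_add_adjacent_intervals (hldi a (a + 2 * κ)) (hldi (a + 2 * κ) (b - 2 * κ))
    have s5 := intervalIntegral.integral_add_adjacent_intervals (hldi a (b - 2 * κ)) (hldi (b - 2 * κ) b)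
    linarith
  linarith

lemma fejer_eq {t : ℝ} (ht : 0 < t) (x : ℝ) : fejer t x = Pool.Agent.Helper99.HZ.fej t x := by
  unfold fejer Pool.Agent.Helper99.HZ.fej
  have h1 : max 0 (t - |x|) = t * max 0 (1 - |x| / t) := by
    rw [mul_max_of_nonneg _ _ ht.le, mul_zero]
    congr 1
    field_simp
  rw [h1]
  field_simp

/-- the mean square with a nonnegative weight -/
lemma cone_form {ε : ℝ} (hε : 0 < ε) : ∀ᶠ T : ℝ in atTop, ∀ s : ℝ → ℝ, Continuous s → HasCompactSupport s →
    (∀ x, 0 ≤ s x) → (1 - ε) * (∫ x, s x) ^ 2 ≤ ∫ x, ∫ y, s x * s y * Pool.Agent.Helper57.FL.ff T (x - y) := by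
  obtain ⟨T₀, hT₀⟩ := Pool.Agent.Helper57.Zeta.NT_lower ε hε
  filter_upwards [eventually_ge_atTop T₀, eventually_gt_atTop (1:ℝ), Pool.Agent.Helper99.HZ.NT_pos_ev] with T h1 h2 h3
  intro s hs hc h0
  -- the support
  obtain ⟨c, hcs⟩ : ∃ c : ℝ, ∀ x, c ≤ |x| → s x = 0 := by
    obtain ⟨R, hR⟩ := hc.isCompact.isBounded.subset_closedBall 0
    refine ⟨R + 1, fun x hx => ?_⟩
    by_contra h
    have h4 : x ∈ tsupport s := subset_tsupport s h
    have h5 := hR h4
    rw [Metric.mem_closedBall, Real.dist_eq, sub_zero] at h5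
    linarith
  have hout : ∀ x, x ∉ Set.Icc (-c) c → s x = 0 := by
    intro x hx
    apply hcs
    by_contra h
    push Not at h
    apply hx
    have := abs_lt.mp h
    exact ⟨by linarith, by linarith⟩
  have hS := SN_pos h2
  have h4 := Pool.Agent.Helper99.HZ.ms_lower h2 hs h0 hcs h3
  rw [← Pool.Agent.Helper99.HZ.int_swap hs (Pool.Agent.Helper57.FL.ff_cont h2) hcs] at h4
  have h5 : ∫ x in Set.Icc (-c) c, ∫ y in Set.Icc (-c) c, s x * s y * Pool.Agent.Helper57.FL.ff T (x - y) =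
      ∫ x, ∫ y, s x * s y * Pool.Agent.Helper57.FL.ff T (x - y) := by
    rw [setIntegral_eq_integral_of_forall_compl_eq_zero (s := Set.Icc (-c) c)]
    · refine integral_congr_ae (Filter.Eventually.of_forall fun x => ?_)
      simp only
      refine setIntegral_eq_integral_of_forall_compl_eq_zero fun y hy => ?_
      rw [hout y hy]
      ring
    · intro x hx
      simp [hout x hx]
  rw [h5] at h4
  have h6 : (1 - ε) * SN T ≤ Pool.Agent.Helper57.Zeta.NT T := hT₀ T h1
  have h7 : SN T * ((1 - ε) * (∫ x, s x) ^ 2) ≤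
      SN T * ∫ x, ∫ y, s x * s y * Pool.Agent.Helper57.FL.ff T (x - y) := by
    calc SN T * ((1 - ε) * (∫ x, s x) ^ 2) = (∫ x, s x) ^ 2 * ((1 - ε) * SN T) := by ring
      _ ≤ (∫ x, s x) ^ 2 * Pool.Agent.Helper57.Zeta.NT T := mul_le_mul_of_nonneg_left h6 (sq_nonneg _)
      _ ≤ _ := h4
  exact le_of_mul_le_mul_left h7 hS

/-- The form factor of the zeros of zeta beyond 1, without any hypothesis. Let `F_T(x)` be
`(T log T/2π)⁻¹ |∑_{0 ≤ γ ≤ T} m_ρ T^(x(ρ-1/2))|²`. For all large `T`: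
* for all `1 + ε ≤ α ≤ 3/2` the form factor `(T log T/2π)⁻¹ ∑∑ m_ρ m_ρ' T^(α(ρ-ρ')) 4/(4-(ρ-ρ')²)` is real and at least
  `3/2 - α - ε`;
* for `0 ≤ a < b` the integral of `F_T` over `[a,b]` is at least `∫_a^b F₀ - ε` with `F₀(x) = x` on `[0,1]`, `3/2 - x` on `(1,3/2]`
  and `0` beyond;
* for `0 < t < 1` and every real `b` the mean with the Fejér kernel of width `t` at `b` is at least `2 - 1/t - t/3 - ε`;
* for every continuous `s ≥ 0` with compact support `∫∫ s(x) s(y) F_T(x-y) dx dy ≥ (1-ε) (∫ s)²`. -/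
theorem result :
    (∀ ε : ℝ, 0 < ε → ∀ᶠ T : ℝ in atTop, ∀ α : ℝ, 1 + ε ≤ α → α ≤ 3 / 2 →
      (pairFormFactor T α).im = 0 ∧ 3 / 2 - α - ε ≤ (pairFormFactor T α).re) ∧
    (∀ a b : ℝ, 0 ≤ a → a < b → ∀ ε : ℝ, 0 < ε → ∀ᶠ T : ℝ in atTop,
      (∫ x in a..b, lowerDensity x) - ε ≤ ∫ x in a..b, formFactor T x) ∧
    (∀ t : ℝ, 0 < t → t < 1 → ∀ ε : ℝ, 0 < ε → ∀ᶠ T : ℝ in atTop, ∀ b : ℝ,
      2 - 1 / t - t / 3 - ε ≤ ∫ x, fejer t (x - b) * formFactor T x) ∧
    (∀ ε : ℝ, 0 < ε → ∀ᶠ T : ℝ in atTop, ∀ s : ℝ → ℝ, Continuous s → HasCompactSupport s →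
      (∀ x, 0 ≤ s x) → (1 - ε) * (∫ x, s x) ^ 2 ≤ ∫ x, ∫ y, s x * s y * formFactor T (x - y)) := by
  refine ⟨fun ε hε => ?_, fun a b ha hab ε hε => ?_, fun t ht ht1 ε hε => ?_, fun ε hε => ?_⟩
  · filter_upwards [Pool.Agent.Helper57.KP.pointwise hε] with T hT α h1 h2
    rw [pairFormFactor_eq]
    exact hT α h1 h2
  · filter_upwards [interval_form ha hab hε] with T hT
    simp only [formFactor_eq]
    exact hT
  · filter_upwards [Pool.Agent.Helper99.HZ.fplus ht ht1 hε] with T hT b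
    have h1 := hT b
    simp only [formFactor_eq, fejer_eq ht]
    exact h1
  · filter_upwards [cone_form hε] with T hT s h1 h2 h3
    simp only [formFactor_eq]
    exact hT s h1 h2 h3

end Pool.Agent.Results.MP_8958e8_nt.FormFactorBeyondOne
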