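import Pool.Agent.Helper25.HV.Tot

namespace Pool.Agent.Results.MP_8958e8_nt.LargeGapsOnLine

/-- For every `η > 0` there are `c > 0` and `T₀` such that for all `T ≥ T₀` at least `c T log T` different numbers
`γ` in `[T, (1+η)T]` are ordinates of zeros of zeta on the critical line while zeta has no zero `1/2 + iu` with
`u` in `(γ, γ + (13/5) 2π/log T)`. -/
theorem result : ∀ η : ℝ, 0 < η → ∃ c T₀ : ℝ, 0 < c ∧ ∀ T : ℝ, T₀ ≤ T →
    ∃ S : Finset ℝ, c * (T * Real.log T) ≤ S.card ∧ ∀ γ ∈ S, γ ∈ Set.Icc T ((1 + η) * T) ∧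
      riemannZeta (1 / 2 + γ * Complex.I) = 0 ∧
      ∀ u ∈ Set.Ioo γ (γ + 13 / 5 * (2 * Real.pi / Real.log T)), riemannZeta (1 / 2 + u * Complex.I) ≠ 0 :=
  Pool.Agent.Helper25.HV.hallGaps2

end Pool.Agent.Results.MP_8958e8_nt.LargeGapsOnLine
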