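import Pool.Agent.Helper57.M.H

open Filter Topology MeasureTheory
open Pool.Agent.Helper57.PC
open scoped SchwartzMap

namespace Pool.Agent.Results.MP_8958e8_nt.LargeScaleLaw

/-- The sum of `mult * mult * g(u)` over all ordered pairs of nontrivial zeros with ordinates
`γ₁, γ₂` in `[0,T]` (diagonal pairs included), where `u = (γ₁ - γ₂) log T / (2π)`. -/
noncomputable def smoothCount (T : ℝ) (g : ℝ → ℝ) : ℝ :=
  ∑ᶠ p ∈ {p : ℂ × ℂ | p.1 ∈ zerosUpTo T ∧ p.2 ∈ zerosUpTo T},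
    ((mult p.1 : ℝ) * (mult p.2 : ℝ) * g ((p.1.im - p.2.im) * Real.log T / (2 * Real.pi)))

/-- The lower order arithmetic correction to the density `F`: the mean square of the local density
of the zeros minus `1`, plus the sum `2 log⁻²T ∑_{n ≤ T} Λ(n)²/n cos(2πu log n/log T)` minus the
limit `2 ∫_0^1 t cos(2πut) dt` of that sum. -/
noncomputable def arithCorr (T u : ℝ) : ℝ :=
  (∫ t in (0:ℝ)..T, Real.log (t / (2 * Real.pi)) ^ 2) / (T * Real.log T ^ 2) - 1 +
    2 / Real.log T ^ 2 * ∑ n ∈ Finset.Icc 1 ⌊T⌋₊, ArithmeticFunction.vonMangoldt n ^ 2 / n *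
      Real.cos (2 * Real.pi * u * (Real.log n / Real.log T)) -
    2 * ∫ t in (0:ℝ)..1, t * Real.cos (2 * Real.pi * u * t)

lemma smoothCount_eq (T : ℝ) (g : ℝ → ℝ) : smoothCount T g = Pool.Agent.Helper57.LH.WP T g := by
  unfold smoothCount Pool.Agent.Helper57.LH.WP
  rw [finsum_mem_eq_sum_of_inter_support_eq
    (t := Pool.Agent.Helper57.Zeta.Zf T ×ˢ Pool.Agent.Helper57.Zeta.Zf T)]
  · rfl
  · ext p
    simp only [Set.mem_inter_iff, Set.mem_ofPred_eq, Finset.mem_coe, Finset.mem_product]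
    constructor
    · rintro ⟨⟨h1, h2⟩, h3⟩
      exact ⟨⟨Pool.Agent.Helper57.Zeta.mem_Zf.mpr h1, Pool.Agent.Helper57.Zeta.mem_Zf.mpr h2⟩, h3⟩
    · rintro ⟨⟨h1, h2⟩, h3⟩
      exact ⟨⟨Pool.Agent.Helper57.Zeta.mem_Zf.mp h1, Pool.Agent.Helper57.Zeta.mem_Zf.mp h2⟩, h3⟩

lemma arithCorr_eq {T : ℝ} (hT : 0 < T) (u : ℝ) : arithCorr T u = Pool.Agent.Helper57.UB.KD T u := by
  unfold arithCorr Pool.Agent.Helper57.UB.KD Pool.Agent.Helper57.UB.PT
  rw [Pool.Agent.Helper4.PU.AT_eq hT]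
  have h1 : Pool.Agent.Helper57.LH.NX (Real.log T) = ⌊T⌋₊ := by
    unfold Pool.Agent.Helper57.LH.NX
    rw [Real.exp_log hT]
  rw [h1]
  congr 3
  symm
  rw [Finset.sum_range_succ']
  simp only [ArithmeticFunction.map_zero, ne_eq, OfNat.ofNat_ne_zero, not_false_eq_true, zero_pow, zero_div, zero_mul, add_zero]
  rw [Finset.range_eq_Ico, Finset.sum_Ico_add' (fun n : ℕ => ArithmeticFunction.vonMangoldt n ^ 2 / (n : ℝ) *
    Real.cos (2 * Real.pi * u * (Real.log n / Real.log T))) 0 ⌊T⌋₊ 1]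
  rfl

end Pool.Agent.Results.MP_8958e8_nt.LargeScaleLaw

open Pool.Agent.Results.MP_8958e8_nt.LargeScaleLaw in
/-- Unconditional large scale form of Montgomery's pair correlation law, at all scales and all
positions up to a power of `T`: for every Schwartz function `g` the smoothed pair count with centre
`s` and scale `R` agrees with Montgomery's prediction (diagonal term `1` at the origin, density `F`
elsewhere), corrected by the explicit lower order arithmetic term `arithCorr T = O(1/log T)`, up to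
a relative error `C/R²`; the constant `C` depends only on `g`. -/
theorem Pool.Agent.Results.MP_8958e8_nt.LargeScaleLaw.result :
    ∃ c T₀ : ℝ, (∀ T : ℝ, T₀ ≤ T → ∀ u : ℝ, |arithCorr T u| ≤ c * (1 + |u|) / Real.log T) ∧
      ∀ g : 𝓢(ℝ, ℝ), ∃ C : ℝ, ∀ T : ℝ, T₀ ≤ T → ∀ R s : ℝ, 0 < R → R ≤ T ^ (1/250 : ℝ) →
        |s| ≤ T ^ (1/250 : ℝ) →
        |smoothCount T (fun u => g ((u - s) / R)) -
          (g (-s / R) + ∫ u, g ((u - s) / R) * (pcDensity u + arithCorr T u)) *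
            (T * Real.log T / (2 * Real.pi))| ≤ C / R ^ 2 * (T * Real.log T / (2 * Real.pi)) := by
  obtain ⟨T₀, hT₀, h⟩ := Pool.Agent.Helper57.UB.large_scale_full
  obtain ⟨c, hc⟩ : ∃ c : ℝ, ∀ T : ℝ, 3 ≤ T → ∀ u : ℝ,
      |Pool.Agent.Helper57.UB.KD T u| ≤ c * (1 + |u|) / Real.log T :=
    ⟨_, fun T hT u => Pool.Agent.Helper57.UB.KD_small hT u⟩
  refine ⟨c, T₀, fun T hT u => ?_, fun g => ?_⟩
  · rw [arithCorr_eq (by linarith)]
    exact hc T (hT₀.trans hT) u
  · obtain ⟨K, hK, hg⟩ := h g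
    refine ⟨K, fun T hT R s hR hRT hsT => ?_⟩
    have h1 := hg T hT R s hR hRT hsT
    have hT0 : 0 < T := by linarith
    unfold Pool.Agent.Helper57.UB.EF at h1
    rw [smoothCount_eq]
    simp only [zero_sub] at h1
    simp_rw [arithCorr_eq hT0]
    rw [mul_comm (g (-s / R) + _)]
    exact h1
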