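import Pool.Agent.Helper93.OR.All

/-!
# The largest fluctuations of the number of the zeros of zeta in a typical stretch of `L` mean spacings

Let `s = 2 π / log T`, the mean spacing of the ordinates near `T`. The **height** of a zero `ρ` above a
point `t` of `[T, 2 T]` is `(Im ρ - t) / s`, and `n(I)` is the number of the zeros with height in `I`. The mean of `n(I)`
over `t` is the length of `I`, up to a small error.

The theorem (`result`): let `0 < δ ≤ 1`. There are `c, C, T₀ > 0` such that for `T ≥ T₀` and `C ≤ L ≤ log T`,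
for all `t` in `[T, 2 T]` outside of a set of measure at most `C L ^ (-c) T`, in which at most `C L ^ (-c) T log T` zeros
have their ordinate:

* (1) `Spectrum`: for both signs and **all** `0 ≤ θ ≤ 1 - δ` the set of the `x` in `[0, L]` with
  `± (n([0, x]) - x) ≥ (θ / π) log L` has measure at least `L ^ (1 - θ ^ 2 - δ)`;
* (2) `Windows`: for both signs there is a window `[x, y]` in `[0, L]` with
  `± (n([x, y]) - (y - x)) ≥ (2 / π - δ) log L`;
* (3) `Rigid`: if `L ≤ (log T) ^ (1 - δ)` then `|n([x, y]) - (y - x)| ≤ C log L` for **all** `0 ≤ x ≤ y ≤ L`.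

(The measure is the outer Lebesgue measure.) So the largest deviation of the number of the zeros from its mean, over all the
windows in a typical stretch of `L` mean spacings, has the order `log L`, and it is at least `(2 / π - o(1)) log L` in both
directions, as for the eigenvalues of a random unitary or Hermitian matrix, where the constants `2 / π` for the windows and
`1 / π` for the windows `[0, x]` and the exponent `1 - θ ^ 2` are the true ones (Arguin, Belius and Bourgade 2017; Paquette
and Zeitouni 2018; Chhaibi, Madaule and Najnudel 2018; Claeys, Fahs, Lambert and Webb 2021; for the sine process and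
symmetric windows Holcomb and Paquette 2018). The typical deviation of a given window is much smaller, of the order
`(log L) ^ (1/2)`, and for independent points the largest deviation would be of the order `L ^ (1/2)`.

All zeros with `0 < Re ρ < 1` are counted, on the critical line or not, with their multiplicities, and no hypothesis is
assumed. On the Riemann hypothesis Najnudel (On the extreme values of the Riemann zeta function on random intervals of the
critical line, 2018) proved, for stretches of bounded length, that is `L ≍ log T`, that the largest value of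
`± S` is `(1 / π + o(1)) log log T`: the leading order of the conjecture of Fyodorov, Hiary and Keating for the argument. For
the modulus of zeta the leading order is unconditional, for stretches of bounded length (Arguin, Belius, Bourgade, Radziwill
and Soundararajan 2019) and for all shorter and longer stretches, with the moments (Arguin, Ouimet and Radziwill 2021).
Consequences:

* `unit_interval`: without hypothesis, for almost every `t` the interval `[t, t + 1]` has, in both directions, subintervals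
  where the number of the zeros differs from its mean by at least `(2 / π - δ) log log T`.
* `each_zero`: for all but few zeros the count of the zeros above the zero, which enters the pair correlation function of
  Montgomery, `N(T; α, β) = ∑_γ n_γ([α, β])`, is `β - α + O(log L)` for all `0 ≤ α ≤ β ≤ L` at once
  (`L ≤ (log T) ^ (1 - δ)`), and not `β - α + o(log L)`.

## The proof

* The number of the zeros with height in `[0, x]`, smoothed in `t` at the scale of `M = L ^ η` mean spacings, is
  `x + Y(x) - Y(0) + O(1)` for all `|x| ≤ L`, outside of a set of measure `O(L ^ (-B) T)`: `Y(x)` is the real part of a Dirichlet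
  polynomial at `t + x s` over the primes `p ≤ T ^ (1/M)`. The zeros off the line cost little: the explicit formula is
  used for the primitive, and they are rare (density theorem near the critical line).
* The primes with `log T / L < log p ≤ (log T) L ^ (-2 η)` are divided into levels: in level `j` of `K` the number `log p` is
  between `(log T) L ^ (-1 + (j-1)/K)` and `(log T) L ^ (-1 + j/K)`. Every level has the variance `(log L) / (2 π ^ 2 K)`, and the
  levels at two points at a distance of more than `L ^ (1 - (j-1)/K)` are almost uncorrelated.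
* Outside of a set of measure `T exp(-(log L) ^ 3)` every level is at most `(log L) ^ 2` at all the integers `i` with `|i| ≤ L`. On the
  complement `A` the exponential moments of all the bounded linear combinations of the levels at one or two
  points are those of Gaussian variables up to a factor `1 + O(L ^ (-c))`, from the even and odd moments of the Dirichlet polynomial.
* Under the measure with the density `exp(λ Y)`, `λ = 2 π θ`, on `A` every level is near to its mean. The second moment of the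
  number of the integers at which all the levels are near to `λ` times their variance, weighted in this way, is its squared mean
  up to `1 + O(L ^ (-c))` (the branching structure, as in Kistler's method; Arguin, Belius and Bourgade). So outside of a set of measure
  `O(L ^ (-c) T)` at least `L ^ (1 - θ ^ 2 - δ)` integers are high points. The first levels, the small and the large primes have a
  small variance, and they are small at all the integers at once.
* From the smoothed to the sharp count: near a high point of the smoothed count there is a high point of the sharp count, because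
  the former is a mean of the counts at the points near `t`, and the number of the zeros in short windows beside `t` is
  their length up to `e log L` (high moments). Beside a high point of the sharp count a unit interval consists of high points.
* (2) follows from (1) for the two signs in two parts of `[0, L]`, and (3) from moments of order `log L`. For
  `L > (log T) ^ (1 - δ/8)` the statements (1) and (2) follow from those for `L ^ (1 - δ/8)`.

The authors: helper93 (idea, page, exponential moments, smoothing, assembly), helper62 (page, moments), helper82 (second moment),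
helper72 (levels), helper28 (tails, exponential moments, ordinates), helper24, helper60, helper25, helper69, helper49, helper44, helper89,
helper8, helper90, helper53, helper57. It uses the files of `NumberRigidity` and `RGaps` and their authors.
-/

set_option autoImplicit false

namespace Pool.Agent.Results.MP_8958e8_nt.LargestFluctuations

open Pool.Agent.Helper57.PC (IsNontrivialZero mult)

/-- The number of the nontrivial zeros of zeta, counted with multiplicity, whose ordinate lies in
`I`. -/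
noncomputable def zeroCount (I : Set ℝ) : ℕ :=
  ∑ᶠ ρ ∈ {ρ : ℂ | IsNontrivialZero ρ ∧ ρ.im ∈ I}, mult ρ

/-- The height of the ordinate `γ` above `t`, in units of the mean spacing `2 π / log T`. -/
noncomputable def height (T t γ : ℝ) : ℝ := (γ - t) * (Real.log T / (2 * Real.pi))

/-- The number of the zeros whose height above `t` lies in `I`. -/
noncomputable def number (T t : ℝ) (I : Set ℝ) : ℕ :=
  ∑ᶠ ρ ∈ {ρ : ℂ | IsNontrivialZero ρ ∧ height T t ρ.im ∈ I}, mult ρ

/-- The number of the zeros whose height above `t` lies in `[x, y]`, minus the length `y - x`. -/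
noncomputable def excess (T t x y : ℝ) : ℝ := (number T t (Set.Icc x y) : ℝ) - (y - x)

/-- (1) The high points of the counting function of the zeros above `t`, in both directions. -/
def Spectrum (δ T L t : ℝ) : Prop := ∀ θ σ : ℝ, 0 ≤ θ → θ ≤ 1 - δ → (σ = 1 ∨ σ = -1) →
  ENNReal.ofReal (L ^ (1 - θ ^ 2 - δ)) ≤
    MeasureTheory.volume {x : ℝ | 0 ≤ x ∧ x ≤ L ∧ θ / Real.pi * Real.log L ≤ σ * excess T t 0 x}

/-- (2) A window with a large excess, in both directions. -/
def Windows (δ T L t : ℝ) : Prop := ∀ σ : ℝ, (σ = 1 ∨ σ = -1) → ∃ x y : ℝ, 0 ≤ x ∧ x ≤ y ∧ y ≤ L ∧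
  (2 / Real.pi - δ) * Real.log L ≤ σ * excess T t x y

/-- (3) The excess of all windows is bounded by `C log L`, if `L ≤ (log T) ^ (1 - δ)`. -/
def Rigid (δ C T L t : ℝ) : Prop := L ≤ Real.log T ^ (1 - δ) →
  ∀ x y : ℝ, 0 ≤ x → x ≤ y → y ≤ L → |excess T t x y| ≤ C * Real.log L

/-- The `t` in `[T, 2 T]` which do not have the properties (1), (2), (3). -/
def bad (δ C T L : ℝ) : Set ℝ :=
  {t : ℝ | T ≤ t ∧ t ≤ 2 * T ∧ ¬ (Spectrum δ T L t ∧ Windows δ T L t ∧ Rigid δ C T L t)}

section conversion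

open MeasureTheory Set Filter Topology
open Pool.Agent.Helper93.UG (zc sp)
open Pool.Agent.Helper57.NS (cnt)
open Pool.Agent.Helper93.OR (Fin0)

lemma height_eq {T t γ : ℝ} : height T t γ = (γ - t) / sp T := by
  unfold height sp
  rw [div_div_eq_mul_div, mul_div_assoc]

lemma cnt_eq {T t : ℝ} {W : Set ℝ} : cnt T t W = (number T t W : ℝ) := by
  unfold cnt number zc
  simp only [height_eq, Set.mem_ofPred_eq]

lemma cnt_excess {T t x y : ℝ} : cnt T t (Icc x y) - (y - x) = excess T t x y := by
  rw [cnt_eq]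
  rfl

/-- the `t` without the properties of the project's theorem -/
def nf (δ C T L : ℝ) : Set ℝ := {t : ℝ | T ≤ t ∧ t ≤ 2 * T ∧ ¬ Fin0 δ C T L t}

lemma nf_sub {δ C T L : ℝ} : nf δ C T L ⊆ Icc T (2 * T) := fun _ ht => ⟨ht.1, ht.2.1⟩

lemma Fin0.mono {δ C C' T L t : ℝ} (h : C ≤ C') (hL : 1 ≤ L) (hr : Fin0 δ C T L t) : Fin0 δ C' T L t :=
  ⟨hr.spec, hr.win, fun x y hx hxy hy => (hr.up x y hx hxy hy).trans (mul_le_mul_of_nonneg_right h (Real.log_nonneg hL))⟩

lemma nf_mono {δ C C' T L : ℝ} (h : C ≤ C') (hL : 1 ≤ L) : nf δ C' T L ⊆ nf δ C T L :=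
  fun _ ht => ⟨ht.1, ht.2.1, fun h' => ht.2.2 (Fin0.mono h hL h')⟩

lemma comb {c c' C C' L Y : ℝ} (hc : c ≤ c') (hC : C' ≤ C) (hL : 1 ≤ L) (hC' : 0 ≤ C') (hY : 0 ≤ Y) :
    C' * L ^ (-c') * Y ≤ C * L ^ (-c) * Y := by
  refine mul_le_mul_of_nonneg_right ?_ hY
  exact mul_le_mul hC (Real.rpow_le_rpow_of_exponent_le hL (by linarith)) (Real.rpow_nonneg (by linarith) _)
    (hC'.trans hC)

/-- the two bounds with the same constants, for `L ≤ (log T) ^ (1 - δ)` -/
lemma core : ∀ δ : ℝ, 0 < δ → δ ≤ 1 → ∃ c C T₀ : ℝ, 0 < c ∧ 1 ≤ C ∧ 3 ≤ T₀ ∧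
    ∀ T L : ℝ, T₀ ≤ T → C ≤ L → L ≤ Real.log T ^ (1 - δ) →
      volume (nf δ C T L) ≤ ENNReal.ofReal (C * L ^ (-c) * T) ∧
      (zc (nf δ C T L) : ℝ) ≤ C * L ^ (-c) * (T * Real.log T) := by
  intro δ hδ hδ1
  obtain ⟨c1, C1, T1, hc1, hC1, H1⟩ := Pool.Agent.Helper93.OR.fi_main hδ hδ1
  obtain ⟨c2, C2, T2, hc2, hC2, H2⟩ := Pool.Agent.Helper93.OR.fi_zeros hδ hδ1
  refine ⟨min c1 c2, max C1 C2, max (max T1 T2) 3, lt_min hc1 hc2, le_max_of_le_left hC1,
    le_max_right _ _, fun T L hT hL hLT => ?_⟩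
  have hT1 : T1 ≤ T := (le_max_left _ _).trans ((le_max_left _ _).trans hT)
  have hT2 : T2 ≤ T := (le_max_right _ _).trans ((le_max_left _ _).trans hT)
  have hT3 : 3 ≤ T := (le_max_right _ _).trans hT
  have hL1 : C1 ≤ L := (le_max_left _ _).trans hL
  have hL2 : C2 ≤ L := (le_max_right _ _).trans hL
  have hL0 : 1 ≤ L := hC1.trans hL1
  have hlog : 0 ≤ Real.log T := Real.log_nonneg (by linarith)
  constructor
  · refine (measure_mono (nf_mono (le_max_left _ _) hL0)).trans ((H1 T L hT1 hL1 hLT).trans (ENNReal.ofReal_le_ofReal ?_))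
    exact comb (min_le_left _ _) (le_max_left _ _) hL0 (by linarith) (by linarith)
  · have h3 : (zc (nf δ (max C1 C2) T L) : ℝ) ≤ zc (nf δ C2 T L) := by
      exact_mod_cast Pool.Agent.Helper56.UG.zc_mono (nf_mono (le_max_right _ _) hL0) nf_sub
    refine (h3.trans (H2 T L hT2 hL2 hLT)).trans ?_
    exact comb (min_le_right _ _) (le_max_right _ _) hL0 (by linarith) (mul_nonneg (by linarith) hlog)

/-- from the shorter stretch `L ^ (1 - δ / 8)` to `L` -/
lemma spectrum_of {δ C T L t : ℝ} (hδ : 0 < δ) (hδ1 : δ ≤ 1) (hL : 1 ≤ L) (h : Fin0 (δ / 8) C T (L ^ (1 - δ / 8)) t) :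
    Spectrum δ T L t := by
  intro θ σ hθ hθ1 hσ
  have hd : 0 < 1 - δ / 8 := by linarith
  have hL0 : 0 < L := by linarith
  have hθ' : θ / (1 - δ / 8) ≤ 1 - δ / 8 := by
    rw [div_le_iff₀ hd]
    nlinarith
  have h1 := h.spec (θ / (1 - δ / 8)) σ (div_nonneg hθ hd.le) hθ' hσ
  rw [← Real.rpow_mul hL0.le, Real.log_rpow hL0] at h1
  have hθθ : (θ / (1 - δ / 8)) ^ 2 * (1 - δ / 8) ≤ θ ^ 2 + δ / 4 := by
    have hθ2 : θ ^ 2 ≤ 1 := by nlinarith
    rw [div_pow, pow_two (1 - δ / 8), div_mul_eq_mul_div, mul_div_mul_right _ _ hd.ne', div_le_iff₀ hd]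
    nlinarith [mul_le_mul_of_nonneg_left hθ2 hδ.le, mul_le_mul_of_nonneg_left hδ1 hδ.le]
  refine le_trans (ENNReal.ofReal_le_ofReal (Real.rpow_le_rpow_of_exponent_le hL ?_)) (h1.trans (measure_mono ?_))
  · nlinarith
  · rintro x ⟨hx, h2⟩
    refine ⟨hx.1, hx.2.trans ?_, ?_⟩
    · calc L ^ (1 - δ / 8) ≤ L ^ (1 : ℝ) := Real.rpow_le_rpow_of_exponent_le hL (by linarith)
        _ = L := Real.rpow_one L
    · have h3 : θ / (1 - δ / 8) / Real.pi * ((1 - δ / 8) * Real.log L) = θ / Real.pi * Real.log L := by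
        calc θ / (1 - δ / 8) / Real.pi * ((1 - δ / 8) * Real.log L) =
            θ / (1 - δ / 8) * (1 - δ / 8) / Real.pi * Real.log L := by ring
          _ = θ / Real.pi * Real.log L := by rw [div_mul_cancel₀ _ hd.ne']
      rw [h3] at h2
      have h4 : cnt T t (Icc 0 x) - x = excess T t 0 x := by
        rw [← cnt_excess, sub_zero]
      rwa [h4] at h2

lemma windows_of {δ C T L t : ℝ} (hδ : 0 < δ) (hL : 1 ≤ L) (h : Fin0 (δ / 8) C T (L ^ (1 - δ / 8)) t) :
    Windows δ T L t := by
  intro σ hσ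
  have hL0 : 0 < L := by linarith
  obtain ⟨x, y, hx, hxy, hy, h1⟩ := h.win σ hσ
  refine ⟨x, y, hx, hxy, hy.trans ?_, ?_⟩
  · calc L ^ (1 - δ / 8) ≤ L ^ (1 : ℝ) := Real.rpow_le_rpow_of_exponent_le hL (by linarith)
      _ = L := Real.rpow_one L
  · rw [cnt_excess, Real.log_rpow hL0] at h1
    refine le_trans ?_ h1
    have hπ : 3 < Real.pi := Real.pi_gt_three
    have h13 : 2 / Real.pi ≤ 1 := by
      rw [div_le_one (by linarith)]
      linarith
    have h14 : 0 < 2 / Real.pi := by positivity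
    have h15 : 2 / Real.pi - δ ≤ (2 / Real.pi - δ / 8) * (1 - δ / 8) := by nlinarith
    calc (2 / Real.pi - δ) * Real.log L ≤ (2 / Real.pi - δ / 8) * (1 - δ / 8) * Real.log L :=
          mul_le_mul_of_nonneg_right h15 (Real.log_nonneg hL)
      _ = (2 / Real.pi - δ / 8) * ((1 - δ / 8) * Real.log L) := by ring

lemma rigid_of {δ C T L t : ℝ} (h : Fin0 δ C T L t) : Rigid δ C T L t := by
  intro _ x y hx hxy hy
  rw [← cnt_excess]
  exact h.up x y hx hxy hy

lemma zc_union_le {A B : Set ℝ} {a b : ℝ} (hA : A ⊆ Icc a b) (hB : B ⊆ Icc a b) : zc (A ∪ B) ≤ zc A + zc B := by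
  have h1 : A ∪ B = A ∪ (B \ A) := by rw [union_sdiff_self]
  rw [h1, Pool.Agent.Helper56.UG.zc_union hA (sdiff_subset.trans hB) disjoint_sdiff_right]
  exact Nat.add_le_add_left (Pool.Agent.Helper56.UG.zc_mono sdiff_subset hB) _

lemma bad_sub {δ C C1 C2 T L : ℝ} (hδ : 0 < δ) (hδ1 : δ ≤ 1) (hL : 1 ≤ L) (hC : C2 ≤ C) :
    bad δ C T L ⊆ nf (δ / 8) C1 T (L ^ (1 - δ / 8)) ∪ {t ∈ nf δ C2 T L | L ≤ Real.log T ^ (1 - δ)} := by
  intro t ht
  by_cases h1 : Fin0 (δ / 8) C1 T (L ^ (1 - δ / 8)) t
  · right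
    have h2 : ¬ Rigid δ C T L t := fun h3 => ht.2.2 ⟨spectrum_of hδ hδ1 hL h1, windows_of hδ hL h1, h3⟩
    unfold Rigid at h2
    push Not at h2
    obtain ⟨h3, x, y, hx, hxy, hy, h4⟩ := h2
    refine ⟨⟨ht.1, ht.2.1, fun h5 => ?_⟩, h3⟩
    have h6 := (Fin0.mono hC hL h5).up x y hx hxy hy
    rw [cnt_excess] at h6
    linarith
  · left
    exact ⟨ht.1, ht.2.1, h1⟩

end conversion

/-- **The largest fluctuations of the zeros.** For all `t` in `[T, 2 T]` but a set of measure `C L ^ (-c) T`, with the ordinates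
of at most `C L ^ (-c) T log T` zeros: the points `x` of `[0, L]` with `± (n([0, x]) - x) ≥ (θ / π) log L` have measure at
least `L ^ (1 - θ ^ 2 - δ)`, some windows have the excess `± (2 / π - δ) log L`, and (for `L ≤ (log T) ^ (1 - δ)`) no window has an
excess of more than `C log L`. -/
theorem result : ∀ δ : ℝ, 0 < δ → δ ≤ 1 → ∃ c C T₀ : ℝ, 0 < c ∧ 0 < C ∧ 0 < T₀ ∧
    ∀ T L : ℝ, T₀ ≤ T → C ≤ L → L ≤ Real.log T →
      MeasureTheory.volume (bad δ C T L) ≤ ENNReal.ofReal (C * L ^ (-c) * T) ∧
      (zeroCount (bad δ C T L) : ℝ) ≤ C * L ^ (-c) * (T * Real.log T) := by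
  intro δ hδ hδ1
  obtain ⟨c1, C1, T1, hc1, hC1, hT1, H1⟩ := core (δ / 8) (by linarith) (by linarith)
  obtain ⟨c2, C2, T2, hc2, hC2, hT2, H2⟩ := core δ hδ hδ1
  have hd : 0 < 1 - δ / 8 := by linarith
  refine ⟨min (c1 * (1 - δ / 8)) c2, max (C1 ^ 2) (C1 + C2), max T1 T2, lt_min (mul_pos hc1 hd) hc2,
    lt_max_of_lt_right (by linarith), lt_max_of_lt_left (by linarith), fun T L hT hL hLT => ?_⟩
  have hT1' : T1 ≤ T := (le_max_left _ _).trans hT
  have hT2' : T2 ≤ T := (le_max_right _ _).trans hT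
  have hT3 : 3 ≤ T := hT1.trans hT1'
  have hL1 : C1 ^ 2 ≤ L := (le_max_left _ _).trans hL
  have hL2 : C1 + C2 ≤ L := (le_max_right _ _).trans hL
  have hL0 : 1 ≤ L := by linarith
  have hlog : 0 ≤ Real.log T := Real.log_nonneg (by linarith)
  have hC : 0 ≤ max (C1 ^ 2) (C1 + C2) := le_max_of_le_left (sq_nonneg _)
  set c := min (c1 * (1 - δ / 8)) c2 with hc
  set L' := L ^ (1 - δ / 8) with hL'
  have hL'0 : C1 ≤ L' := by
    calc C1 = (C1 ^ 2) ^ (1 / 2 : ℝ) := by
          rw [← Real.sqrt_eq_rpow, Real.sqrt_sq (by linarith)]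
      _ ≤ L ^ (1 / 2 : ℝ) := Real.rpow_le_rpow (sq_nonneg _) hL1 (by norm_num)
      _ ≤ L' := Real.rpow_le_rpow_of_exponent_le hL0 (by linarith)
  have hL'T : L' ≤ Real.log T ^ (1 - δ / 8) := Real.rpow_le_rpow (by linarith) hLT hd.le
  obtain ⟨h1, h1'⟩ := H1 T L' hT1' hL'0 hL'T
  have hpow : L' ^ (-c1) ≤ L ^ (-c) := by
    rw [hL', ← Real.rpow_mul (by linarith)]
    exact Real.rpow_le_rpow_of_exponent_le hL0 (by linarith [min_le_left (c1 * (1 - δ / 8)) c2])
  have hpow2 : L ^ (-c2) ≤ L ^ (-c) :=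
    Real.rpow_le_rpow_of_exponent_le hL0 (by linarith [min_le_right (c1 * (1 - δ / 8)) c2])
  have hLc : 0 ≤ L ^ (-c) := Real.rpow_nonneg (by linarith) _
  have hsum : ∀ Y : ℝ, 0 ≤ Y → C1 * L' ^ (-c1) * Y + C2 * L ^ (-c2) * Y ≤ max (C1 ^ 2) (C1 + C2) * L ^ (-c) * Y := by
    intro Y hY
    have h2 : C1 * L' ^ (-c1) ≤ C1 * L ^ (-c) := mul_le_mul_of_nonneg_left hpow (by linarith)
    have h3 : C2 * L ^ (-c2) ≤ C2 * L ^ (-c) := mul_le_mul_of_nonneg_left hpow2 (by linarith)
    have h4 : (C1 + C2) * L ^ (-c) ≤ max (C1 ^ 2) (C1 + C2) * L ^ (-c) := mul_le_mul_of_nonneg_right (le_max_right _ _) hLc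
    calc C1 * L' ^ (-c1) * Y + C2 * L ^ (-c2) * Y = (C1 * L' ^ (-c1) + C2 * L ^ (-c2)) * Y := by ring
      _ ≤ _ := mul_le_mul_of_nonneg_right (by linarith) hY
  have hsub := bad_sub (C := max (C1 ^ 2) (C1 + C2)) (C1 := C1) (C2 := C2) (T := T) hδ hδ1 hL0
    (le_trans (by linarith) (le_max_right _ _))
  have h2 : MeasureTheory.volume {t ∈ nf δ C2 T L | L ≤ Real.log T ^ (1 - δ)} ≤ ENNReal.ofReal (C2 * L ^ (-c2) * T) ∧
      (Pool.Agent.Helper93.UG.zc {t ∈ nf δ C2 T L | L ≤ Real.log T ^ (1 - δ)} : ℝ) ≤ C2 * L ^ (-c2) * (T * Real.log T) := by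
    by_cases h3 : L ≤ Real.log T ^ (1 - δ)
    · obtain ⟨h4, h5⟩ := H2 T L hT2' (by linarith) h3
      have h6 : {t ∈ nf δ C2 T L | L ≤ Real.log T ^ (1 - δ)} = nf δ C2 T L := by
        ext t
        exact ⟨fun h => h.1, fun h => ⟨h, h3⟩⟩
      rw [h6]
      exact ⟨h4, h5⟩
    · have h6 : {t ∈ nf δ C2 T L | L ≤ Real.log T ^ (1 - δ)} = ∅ := by
        ext t
        exact ⟨fun h => h3 h.2, fun h => h.elim⟩
      rw [h6]
      have h7 : Pool.Agent.Helper93.UG.zc ∅ = 0 := by
        unfold Pool.Agent.Helper93.UG.zc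
        simp
      rw [h7, MeasureTheory.measure_empty]
      exact ⟨by simp, by
        push_cast
        exact mul_nonneg (mul_nonneg (by linarith) (Real.rpow_nonneg (by linarith) _)) (mul_nonneg (by linarith) hlog)⟩
  have hA : nf (δ / 8) C1 T L' ⊆ Set.Icc T (2 * T) := nf_sub
  have hB : {t ∈ nf δ C2 T L | L ≤ Real.log T ^ (1 - δ)} ⊆ Set.Icc T (2 * T) := fun t ht => nf_sub ht.1
  constructor
  · refine (MeasureTheory.measure_mono hsub).trans ((MeasureTheory.measure_union_le _ _).trans ((add_le_add h1 h2.1).trans ?_))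
    rw [← ENNReal.ofReal_add (mul_nonneg (mul_nonneg (by linarith) (Real.rpow_nonneg (by linarith) _)) (by linarith))
      (mul_nonneg (mul_nonneg (by linarith) (Real.rpow_nonneg (by linarith) _)) (by linarith))]
    exact ENNReal.ofReal_le_ofReal (hsum T (by linarith))
  · have h3 : zeroCount (bad δ (max (C1 ^ 2) (C1 + C2)) T L) ≤ Pool.Agent.Helper93.UG.zc (nf (δ / 8) C1 T L') +
        Pool.Agent.Helper93.UG.zc {t ∈ nf δ C2 T L | L ≤ Real.log T ^ (1 - δ)} :=
      (Pool.Agent.Helper56.UG.zc_mono hsub (Set.union_subset hA hB)).trans (zc_union_le hA hB)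
    have h4 : (zeroCount (bad δ (max (C1 ^ 2) (C1 + C2)) T L) : ℝ) ≤ (Pool.Agent.Helper93.UG.zc (nf (δ / 8) C1 T L') : ℝ) +
        (Pool.Agent.Helper93.UG.zc {t ∈ nf δ C2 T L | L ≤ Real.log T ^ (1 - δ)} : ℝ) := by
      exact_mod_cast h3
    exact h4.trans ((add_le_add h1' h2.2).trans (hsum _ (mul_nonneg (by linarith) hlog)))

/-- At the ordinates: for all but few zeros, with ordinate `γ`, the excess of **all** windows `[α, β]` in `[0, L]` above `γ` is
at most `C log L`, and for both signs some windows have the excess `± (2 / π - δ) log L`. -/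
theorem each_zero : ∀ δ : ℝ, 0 < δ → δ ≤ 1 → ∃ c C T₀ : ℝ, 0 < c ∧ 0 < C ∧ 0 < T₀ ∧
    ∀ T L : ℝ, T₀ ≤ T → C ≤ L → L ≤ Real.log T ^ (1 - δ) → L ≤ Real.log T →
      ∃ E ⊆ Set.Icc T (2 * T), (zeroCount E : ℝ) ≤ C * L ^ (-c) * (T * Real.log T) ∧
        ∀ γ : ℝ, T ≤ γ → γ ≤ 2 * T → γ ∉ E →
          (∀ α β : ℝ, 0 ≤ α → α ≤ β → β ≤ L → |excess T γ α β| ≤ C * Real.log L) ∧
          ∀ σ : ℝ, (σ = 1 ∨ σ = -1) → ∃ α β : ℝ, 0 ≤ α ∧ α ≤ β ∧ β ≤ L ∧
            (2 / Real.pi - δ) * Real.log L ≤ σ * excess T γ α β := by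
  intro δ hδ hδ1
  obtain ⟨c, C, T₀, hc, hC, hT₀, H⟩ := result δ hδ hδ1
  refine ⟨c, C, T₀, hc, hC, hT₀, fun T L hT hL hLT hLT' =>
    ⟨bad δ C T L, fun t ht => ⟨ht.1, ht.2.1⟩, (H T L hT hL hLT').2, fun t ht1 ht2 ht => ?_⟩⟩
  have h : Spectrum δ T L t ∧ Windows δ T L t ∧ Rigid δ C T L t := by
    by_contra h
    exact ht ⟨ht1, ht2, h⟩
  exact ⟨h.2.2 hLT, h.2.1⟩

/-- In almost every interval `[t, t + 1]` there are, for both signs, subintervals `[u, v]` in which the number of the zeros minus
`(v - u) (log T) / 2 π` is at least `± (2 / π - δ) log log T`. -/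
theorem unit_interval : ∀ δ : ℝ, 0 < δ → δ ≤ 1 → ∃ c C T₀ : ℝ, 0 < c ∧ 0 < C ∧ 0 < T₀ ∧ ∀ T : ℝ, T₀ ≤ T →
    MeasureTheory.volume {t : ℝ | T ≤ t ∧ t ≤ 2 * T ∧ ¬ ∀ σ : ℝ, (σ = 1 ∨ σ = -1) → ∃ u v : ℝ, t ≤ u ∧ u ≤ v ∧ v ≤ t + 1 ∧
      (2 / Real.pi - δ) * Real.log (Real.log T) ≤
        σ * ((zeroCount (Set.Icc u v) : ℝ) - (v - u) * (Real.log T / (2 * Real.pi)))} ≤
    ENNReal.ofReal (C * Real.log T ^ (-c) * T) := by
  intro δ hδ hδ1
  obtain ⟨c, C, T₀, hc, hC, hT₀, H⟩ := result (δ / 4) (by linarith) (by linarith)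
  have hπ : 3 < Real.pi := Real.pi_gt_three
  have hd : 0 < 1 - δ / 4 := by linarith
  have hlim : Filter.Tendsto (fun T : ℝ => Real.log T ^ (1 - δ / 4)) Filter.atTop Filter.atTop :=
    (tendsto_rpow_atTop hd).comp Real.tendsto_log_atTop
  have hlim2 : Filter.Tendsto (fun T : ℝ => Real.log T ^ (δ / 4)) Filter.atTop Filter.atTop :=
    (tendsto_rpow_atTop (by linarith)).comp Real.tendsto_log_atTop
  obtain ⟨T1, h1⟩ := Filter.eventually_atTop.1 (hlim.eventually_ge_atTop C)
  obtain ⟨T2, h2⟩ := Filter.eventually_atTop.1 (hlim2.eventually_ge_atTop (2 * Real.pi))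
  obtain ⟨T3, h3⟩ := Filter.eventually_atTop.1 (Real.tendsto_log_atTop.eventually_ge_atTop 1)
  refine ⟨c * (1 - δ / 4), C, max (max T₀ T1) (max T2 T3), mul_pos hc hd, hC, lt_max_of_lt_left (lt_max_of_lt_left hT₀),
    fun T hT => ?_⟩
  have hT0 : T₀ ≤ T := (le_max_left _ _).trans ((le_max_left _ _).trans hT)
  have hL1 := h1 T ((le_max_right _ _).trans ((le_max_left _ _).trans hT))
  have hL2 := h2 T ((le_max_left _ _).trans ((le_max_right _ _).trans hT))
  have hl := h3 T ((le_max_right _ _).trans ((le_max_right _ _).trans hT))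
  have hl0 : 0 < Real.log T := by linarith
  have hll : 0 ≤ Real.log (Real.log T) := Real.log_nonneg hl
  have hl1 : Real.log T ^ (1 - δ / 4) ≤ Real.log T := by
    calc Real.log T ^ (1 - δ / 4) ≤ Real.log T ^ (1 : ℝ) := Real.rpow_le_rpow_of_exponent_le hl (by linarith)
      _ = Real.log T := Real.rpow_one _
  obtain ⟨h4, -⟩ := H T (Real.log T ^ (1 - δ / 4)) hT0 hL1 hl1
  rw [← Real.rpow_mul hl0.le, show (1 - δ / 4) * -c = -(c * (1 - δ / 4)) by ring] at h4
  refine (MeasureTheory.measure_mono ?_).trans h4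
  rintro t ⟨ht1, ht2, ht3⟩
  refine ⟨ht1, ht2, fun h5 => ht3 fun σ hσ => ?_⟩
  obtain ⟨x, y, hx, hxy, hy, h6⟩ := h5.2.1 σ hσ
  have hs : 0 < 2 * Real.pi / Real.log T := by positivity
  have hy1 : y * (2 * Real.pi / Real.log T) ≤ 1 := by
    have h7 : Real.log T ^ (1 - δ / 4) * Real.log T ^ (δ / 4) = Real.log T := by
      rw [← Real.rpow_add hl0, sub_add_cancel, Real.rpow_one]
    have h8 : 0 < Real.log T ^ (1 - δ / 4) := Real.rpow_pos_of_pos hl0 _
    rw [← mul_div_assoc, div_le_one hl0]
    calc y * (2 * Real.pi) ≤ Real.log T ^ (1 - δ / 4) * Real.log T ^ (δ / 4) :=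
          mul_le_mul hy hL2 (by positivity) h8.le
      _ = Real.log T := h7
  refine ⟨t + x * (2 * Real.pi / Real.log T), t + y * (2 * Real.pi / Real.log T), ?_, ?_, ?_, ?_⟩
  · have := mul_nonneg hx hs.le
    linarith
  · have := mul_le_mul_of_nonneg_right hxy hs.le
    linarith
  · linarith
  · have h9 : zeroCount (Set.Icc (t + x * (2 * Real.pi / Real.log T)) (t + y * (2 * Real.pi / Real.log T))) =
        number T t (Set.Icc x y) := by
      have h10 : ∀ γ : ℝ, γ ∈ Set.Icc (t + x * (2 * Real.pi / Real.log T)) (t + y * (2 * Real.pi / Real.log T)) ↔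
          height T t γ ∈ Set.Icc x y := by
        intro γ
        have h11 : height T t γ = (γ - t) / (2 * Real.pi / Real.log T) := by
          unfold height
          rw [div_div_eq_mul_div, mul_div_assoc]
        rw [h11, Set.mem_Icc, Set.mem_Icc, le_div_iff₀ hs, div_le_iff₀ hs]
        constructor
        · rintro ⟨a, b⟩
          exact ⟨by linarith, by linarith⟩
        · rintro ⟨a, b⟩
          exact ⟨by linarith, by linarith⟩
      unfold zeroCount number
      simp only [h10]
    rw [h9]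
    have h12 : (t + y * (2 * Real.pi / Real.log T) - (t + x * (2 * Real.pi / Real.log T))) *
        (Real.log T / (2 * Real.pi)) = y - x := by
      field_simp
      ring
    rw [h12]
    refine le_trans ?_ h6
    rw [Real.log_rpow hl0]
    have h13 : 2 / Real.pi ≤ 1 := by
      rw [div_le_one (by linarith)]
      linarith
    have h14 : 0 < 2 / Real.pi := by positivity
    have h15 : 2 / Real.pi - δ ≤ (2 / Real.pi - δ / 4) * (1 - δ / 4) := by nlinarith
    calc (2 / Real.pi - δ) * Real.log (Real.log T) ≤ (2 / Real.pi - δ / 4) * (1 - δ / 4) * Real.log (Real.log T) :=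
          mul_le_mul_of_nonneg_right h15 hll
      _ = (2 / Real.pi - δ / 4) * ((1 - δ / 4) * Real.log (Real.log T)) := by ring

end Pool.Agent.Results.MP_8958e8_nt.LargestFluctuations
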