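import Pool.Agent.Helper57.NW.Asm
import Pool.Agent.Helper57.OP.PhiVar
import Pool.Agent.Helper57.OP.Core
import Pool.Agent.Helper57.TL.Tol
import Pool.Agent.Helper24.UG.Win

/-!
# Number rigidity of the zeros of zeta: what the zeros outside of a window predict

Let `s = 2 π / log T`, the mean spacing of the ordinates near `T`. The **height** of a zero `ρ` above a
point `t` of `[T, 2 T]` is `(Im ρ - t) / s`. The heights are a configuration of points of mean density
one.

Let `1 ≤ R < L`. A **linear prediction** of a number depending on the zeros with height in a window `W ⊆ [-R, R]` from the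
zeros outside is `a - ∑ f(height)`, where the sum is over the zeros with height in `[-L, L]` but **not** in `W`, `a` is a real
number and `f` a real function, its **weight**. We admit the weights with `|f| ≤ L ^ c` and total variation at most
`L ^ c` on `[-L, L]` (`IsWeight`). They need not be continuous: step functions with any finite number of steps are
admitted. The prediction **fails** at `t` if its error is more than `ε`.

The theorem (`result`): let `0 < δ ≤ 1`. There are `c, C, T₀ > 0` such that for `T ≥ T₀`, `C ≤ L ≤ log T`,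
`1 ≤ R ≤ L ^ (1 - δ)` and `0 < ε ≤ 1`

* (1) the prediction of the number of the zeros in `W` with the explicit weight `φ` and constant `A` below, which do not
  depend on `T` and `ε`, fails for **some** `W ⊆ [-R, R]` only for `t` in a subset of `[T, 2 T]` of measure at most
  `C (R/L) ^ ((1 - δ) ε ^ 2) T`, in which at most `C (R/L) ^ ((1 - δ) ε ^ 2) T log T` zeros have their ordinate; `φ` is one
  of the weights;
* (2) if `L ^ δ ≤ R`, `L ≤ (log T) ^ (1 - δ)` and `δ ≤ ε` then **every** linear prediction of the number of the zeros in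
  `[-R, R]`, with any weight and any constant, which may depend on `T`, `R`, `L` and `ε`, fails on a set of `t` in `[T, 2 T]`
  of measure at least `(R/L) ^ ((1 + δ) ε ^ 2) T`;
* (3) the **number** of the zeros in the window is the only such sum which has a linear prediction with a power saving in the
  failure probability: if `g` is a function of bounded variation on `[-1, 1]` which is not constant almost everywhere,
  then (with `c, C, T₀` depending on `g`) for `L ^ δ ≤ R`, `L ≤ (log T) ^ (1 - δ)` **every** linear prediction of the sum of `g(height / R)` over the zeros with height in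
  `[-R, R]` has an error of more than `1 / δ` on a set of `t` of measure at least `(R/L) ^ δ T`.

(The measure is the outer Lebesgue measure.) So the least failure probability of a linear prediction of the sum of
`g(height / R)` over the zeros in a window from the zeros outside is `(R/L) ^ (κ + o(1))` with `κ = ε ^ 2` for `g = 1` and
`κ = 0`, for every `ε`, if `g` is not constant almost everywhere. For `g = 1` a prediction exists, and the exponent belongs
to the zeros. It is the tail of a Gaussian variable of variance `1 / (2 log (L/R))`, far beyond its standard deviation: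
the least variance of a linear statistic with `f = 1` on `[-R, R]` and `f = 0` outside of `[-L, L]`, the capacity of
`[-R, R]` in `[-L, L]` for the `H^(1/2)` energy. (For the sine process the number of the points in a bounded set is determined
by the points outside, and nothing else: Ghosh; Ghosh and Peres; Osada and Shirai.)

The weight: let `κ = δ / 32`, `n = ⌈32 / δ ^ 2⌉`, and let `φ` be the mean of `6 (y - sin y) / y ^ 3`, `y = 2 π x / M`, over the
scales `M = (1 + κ) ^ j` with `R (L/R) ^ κ ≤ M ≤ L (L/R) ^ (-κ)`, flattened `n` times: for `m = 1, .., n` the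
function `φ(x)` is replaced by `(φ(x / (1 + κ)) - z φ(x)) / (1 - z)`, `z = (1 + κ) ^ (-2 m)`. This changes the
weights of `n` scales at each end only, and it makes `φ = 1` on `[-R, R]` up to `O((L/R) ^ (-2 κ (n + 1)))`. Let `A` be
the integral of `φ` over `[-L, L]`.

* `own_exact`: for the prediction with `φ` and `A` the exponent is exact in the whole range of `T, R, L, ε`, also for
  bounded windows: its error is more than `ε` for **every** `W ⊆ [-R, R]` at once on a set of `t` of measure at least
  `C⁻¹ (R/L) ^ ((1 + δ) ε ^ 2) T`, in which at least `C⁻¹ (R/L) ^ ((1 + δ) ε ^ 2) T log T` zeros have their ordinate.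
* `determined`: the number of the zeros in `W` is the integer nearest to this prediction, for all `W ⊆ [-R, R]` at
  once, outside of a set of `t`, and of ordinates, of proportion `C (R/L) ^ (1/4 - δ)`, and the exponent `1/4` is
  exact: the nearest integer is wrong for every `W` on a set of `t`, and of ordinates, of proportion at least
  `C⁻¹ (R/L) ^ (1/4 + δ)`. The set `W` can be a single gap between two zeros, or any window around `t`, and it may
  depend on `t`.
* `each_zero` (`W = {0}` at the ordinates `t = γ`): for all but a proportion `C (R/L) ^ ((1 - δ) ε ^ 2)` of the zeros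
  the sum of `φ((γ' - γ) / s)` over the ordinates `γ' ≠ γ` with `|γ' - γ| ≤ L s` is `A - m`, up to `ε`, where
  `m` is the number of the zeros with ordinate `γ`. Montgomery's conjecture says that for `0 < α < β` the mean
  over `γ` of the number of the `γ'` with height in `[α, β]` above `γ` tends to the integral of
  `F(u) = 1 - (sin π u / π u) ^ 2` over `[α, β]`. With the weight `φ` (`R = 1`) its prediction is
  `∫ φ F = A - 1 + o(1)`, `L → ∞`, because `∫ (1 - F) = 1`.

All zeros with `0 < Re ρ < 1` are counted, on the critical line or not, with their multiplicities, and no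
hypothesis is assumed. For `T → ∞` and then `L → ∞` the theorem says that every limit of the zeros at
the scale of their mean spacing is a stationary point process which is **number rigid** in the sense of Ghosh
and Peres (Rigidity and tolerance in point processes, Duke Math. J. 166, 2017): the number of its points in a
bounded set is a function of its points outside of the set. The sine process, which is the limit according to
the conjectures of Montgomery and Dyson, is number rigid (Ghosh); the Poisson process is not. On the Riemann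
hypothesis the statement on the limits follows from Montgomery's theorem (the form factor tends to `0`
at `0`) and the criterion of Ghosh and Peres. Central limit theorems for the linear statistics of the zeros at
scales longer than `s` are due to Selberg, Fujii, and, on that hypothesis, Bourgade and Kuan, and Rodgers.

## The proof

* For one scale `M` and `X = log T / M`, `q(b) = 4 (b - sin b) / b ^ 3`, the explicit formula gives
  `∑_ρ q(X (t - γ)) = M + O(M / log T) - S_X(t) + loss`, `S_X` a sum over the prime powers up to `e ^ X`. The loss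
  comes from the zeros off the line. Those with `|β - 1/2| ≤ C log M / log T` cost `O(log ^ 2 M / M)` each
  time, the others are rare (density theorem near the critical line), so the loss is `O(M ^ (-1/4))` outside a
  set of measure `O(M ^ (-B) T)`, for every `B`.
* The sum `S_X` has bounded variance, but it lives on the primes with `log p ≍ X`. The mean over the scales
  is, up to a small error, the real part of a Dirichlet polynomial `D` over the primes `p ≤ T ^ ((R/L) ^ κ)`, and the
  sum of the squares of its coefficients is `(1 + O(κ)) / log (L/R)`. Its moments of order `2 m`,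
  `m ≤ C log (L/R)`, are those of a Gaussian variable, up to a factor in `[1/2, 2]`, from above and from below. The
  first gives the upper bound for the tail; for the lower bound the moment of order `2 m`,
  `m = (1 + O(κ)) ε ^ 2 log (L/R)`, is localised near `|Re D| = ε` by the moments of a little lower and higher order.
* On `[-R, R]` the flattened `φ` is `1 - O(L ^ (-2))`: the expansion of `φ` at `0` has no terms
  `x ^ 2, .., x ^ (2 n)`. There are at most `L` zeros with height there, outside a set of measure `O(L ^ (-4) T)`: so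
  the sum of `φ(height)` over the zeros in `W` is the number of the zeros in `W`, up to `O(1/L)`, for all `W`.
* The zeros with height outside `[-L, L]` contribute `∫_{|x| > L} φ + O(L ^ (-c))`, outside a set of measure
  `O(L ^ (-4) T)`: the number of the zeros at distance between `L` and `x` is `x - L + O(x ^ c)` there, from
  high moments.
* From the points to the ordinates: if `t` is bad then the whole interval `[t - s, t + s]` lies in a set with
  the same bound for the measure, and the high moments of the number of the zeros in intervals of length `s` are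
  bounded. For the lower bound the prime sum is nearly constant on intervals of `L ^ c` mean spacings, and
  they contain the expected number of zeros.
* No other prediction is better. A weight is a uniform limit of combinations of indicators of intervals, with sum of the
  weights `O(L ^ c)`. For such a combination the error is averaged in `t` with the density `q(X v) / (M s)`,
  `M = R (R/L) ^ k`, `k` small: a set of failures of measure `p T` becomes one of measure at most `L ^ (4 c) p T`. The explicit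
  formula is used for the primitive of `∑_ρ q(X (t - γ))`, where the zeros off the line cost only at the two ends of an interval.
  So the smoothed error is the real part of a Dirichlet polynomial over the primes `p ≤ T ^ (1/M)`, with coefficients `w_p`,
  and `W = ∑ |w_p| ^ 2 / p` is at least `(1 - O(k)) / log (L/R)`, **whatever the weight is**: by the inequality of Cauchy
  and Schwarz with the fixed sequence `m_p = 1 - (1 - L (L/R) ^ k log p / log T)_+ ^ 2`, because
  `∑ m_p ^ 2 / p ≤ (1 + 2 k) log (L/R) + O(1)`, while `∑ Re(w_p) m_p / p` depends only on the jump of the weights from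
  the outside of `[-L, L]` to the window `[-R, R]`: the function `∑ (1 - M log p / log T) ^ 2 m_p sin(2 π x log p / log T) / p` is
  `π/2 + O((L/R) ^ (-k/2))` on all of `[R, L]`. The even and the odd moments of the polynomial give both tails.

* The other sums. For `g` not constant almost everywhere there is a smooth function `Ψ` with support inside
  `(-1, 1)` and `∫ g Ψ' ≠ 0`. The inequality of Cauchy and Schwarz against the transform of `Ψ(x / R)` sees only the part of
  the statistic inside of the window: the sum of `|w_p| ^ 2 / p` is at least a positive constant, whatever `f` is, and the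
  moments of the Dirichlet polynomial give both tails again.

The authors: helper62 (optimality: idea, page, localisation), helper28 (the other sums: idea, page), helper90 (page), helper24 (idea), helper82, helper49, helper93,
helper69, helper60, helper99, helper53, helper44, helper38, helper66, helper21, helper10, helper84, helper7, helper4, helper36,
helper8, helper28, helper89, helper14, helper72, helper25, helper57. It uses the density theorem, the tail
bounds and the moments of the number of the zeros in a window from the file `RGaps` and its authors.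
-/

set_option autoImplicit false

namespace Pool.Agent.Results.MP_8958e8_nt.NumberRigidity

open Pool.Agent.Helper57.PC (IsNontrivialZero mult)

/-- The number of the nontrivial zeros of zeta, counted with multiplicity, whose ordinate lies in
`I`. -/
noncomputable def zeroCount (I : Set ℝ) : ℕ :=
  ∑ᶠ ρ ∈ {ρ : ℂ | IsNontrivialZero ρ ∧ ρ.im ∈ I}, mult ρ

/-- The height of the ordinate `γ` above `t`, in units of the mean spacing `2 π / log T`. -/
noncomputable def height (T t γ : ℝ) : ℝ := (γ - t) * (Real.log T / (2 * Real.pi))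

/-- The bump `6 (y - sin y) / y ^ 3`, with the value `1` at `0`. -/
noncomputable def bump (y : ℝ) : ℝ := if y = 0 then 1 else 6 * (y - Real.sin y) / y ^ 3

/-- The `j` with `R (L/R) ^ κ ≤ (1 + κ) ^ j ≤ L (L/R) ^ (-κ)` (there is no such `j > L / κ`). -/
noncomputable def scales (κ R L : ℝ) : Finset ℕ :=
  (Finset.range (⌊L / κ⌋₊ + 1)).filter fun j => R * (L / R) ^ κ ≤ (1 + κ) ^ j ∧ (1 + κ) ^ j ≤ L * (L / R) ^ (-κ)

/-- The test function: for `n = 0` the mean of the bumps of width `(1 + κ) ^ j`, then `n` times `f(x)` is replaced by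
`(f(x / (1 + κ)) - z f(x)) / (1 - z)`, `z = (1 + κ) ^ (-2 m)`, `m = 1, .., n`. -/
noncomputable def phi (κ R L : ℝ) (n : ℕ) : ℝ → ℝ :=
  Nat.rec (motive := fun _ => ℝ → ℝ)
    (fun x => (∑ j ∈ scales κ R L, bump (2 * Real.pi * x / (1 + κ) ^ j)) / (scales κ R L).card)
    (fun m f x => (f (x / (1 + κ)) - f x / (1 + κ) ^ (2 * (m + 1))) / (1 - 1 / (1 + κ) ^ (2 * (m + 1)))) n

/-- The number of the zeros whose height above `t` lies in `W`. -/
noncomputable def inside (T t : ℝ) (W : Set ℝ) : ℕ :=
  ∑ᶠ ρ ∈ {ρ : ℂ | IsNontrivialZero ρ ∧ height T t ρ.im ∈ W}, mult ρ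

/-- The sum of the weight `f` over the zeros whose height above `t` lies in `[-L, L]` but not in `W`. -/
noncomputable def outside (f : ℝ → ℝ) (T L t : ℝ) (W : Set ℝ) : ℝ :=
  ∑ᶠ ρ ∈ {ρ : ℂ | IsNontrivialZero ρ ∧ height T t ρ.im ∈ Set.Icc (-L) L \ W}, mult ρ * f (height T t ρ.im)

/-- The error of the linear prediction `a - outside` of the number of the zeros whose height above `t` lies in `W`. -/
noncomputable def err (f : ℝ → ℝ) (a T L t : ℝ) (W : Set ℝ) : ℝ :=
  |(inside T t W : ℝ) - (a - outside f T L t W)|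

/-- The admitted weights: `|f|` and the total variation of `f` are at most `L ^ c` on `[-L, L]`. -/
def IsWeight (c L : ℝ) (f : ℝ → ℝ) : Prop :=
  (∀ x ∈ Set.Icc (-L) L, |f x| ≤ L ^ c) ∧ eVariationOn f (Set.Icc (-L) L) ≤ ENNReal.ofReal (L ^ c)

/-- The sum of `g(height / R)` over the zeros whose height above `t` lies in `[-R, R]`. -/
noncomputable def windowSum (g : ℝ → ℝ) (T R t : ℝ) : ℝ :=
  ∑ᶠ ρ ∈ {ρ : ℂ | IsNontrivialZero ρ ∧ height T t ρ.im ∈ Set.Icc (-R) R}, mult ρ * g (height T t ρ.im / R)

/-- The `t` in `[T, 2 T]` at which the linear prediction with the weight `f` and the constant `a` of the sum of `g(height / R)`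
over the zeros with height in `[-R, R]` has an error of more than `ε`. For `g = 1` the sum is the number of these zeros. -/
def fails (g f : ℝ → ℝ) (a T R L ε : ℝ) : Set ℝ :=
  {t : ℝ | T ≤ t ∧ t ≤ 2 * T ∧ ε < |windowSum g T R t - (a - outside f T L t (Set.Icc (-R) R))|}

/-- The number `n` of the steps for given `δ`. -/
noncomputable def steps (δ : ℝ) : ℕ := ⌈32 / δ ^ 2⌉₊

/-- The weight `φ` for given `δ` (`κ = δ / 32`). -/
noncomputable def weight (δ R L : ℝ) : ℝ → ℝ := phi (δ / 32) R L (steps δ)

/-- The constant `A`: the integral of `φ` over `[-L, L]`. -/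
noncomputable def constant (δ R L : ℝ) : ℝ := ∫ x in (-L)..L, weight δ R L x

/-- The `t` in `[T, 2 T]` for which the error of the prediction with `φ` and `A` is more than `ε` for some `W ⊆ [-R, R]`. -/
def someBad (δ T R L ε : ℝ) : Set ℝ :=
  {t : ℝ | T ≤ t ∧ t ≤ 2 * T ∧ ∃ W ⊆ Set.Icc (-R) R, ε < err (weight δ R L) (constant δ R L) T L t W}

/-- The `t` in `[T, 2 T]` for which the error of the prediction with `φ` and `A` is more than `ε` for every `W ⊆ [-R, R]`. -/
def allBad (δ T R L ε : ℝ) : Set ℝ :=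
  {t : ℝ | T ≤ t ∧ t ≤ 2 * T ∧ ∀ W ⊆ Set.Icc (-R) R, ε < err (weight δ R L) (constant δ R L) T L t W}

section conversion

open MeasureTheory Set Filter Topology
open Pool.Agent.Helper57.Zeta Pool.Agent.Helper57.LH Pool.Agent.Helper57.ED
open Pool.Agent.Helper93.UG (zc sp)
open Pool.Agent.Helper57.NS (cnt)
open Pool.Agent.Helper57.NW (Bad prd Sc Aw ph)
open Pool.Agent.Helper54.LG (qk)

lemma height_eq {T t γ : ℝ} : height T t γ = (γ - t) / sp T := by
  unfold height sp
  rw [div_div_eq_mul_div, mul_div_assoc]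

lemma cnt_eq {T t : ℝ} {W : Set ℝ} : cnt T t W = (inside T t W : ℝ) := by
  unfold cnt inside zc
  simp only [height_eq, Set.mem_ofPred_eq]

lemma bump_eq (y : ℝ) : bump y = 3 / 2 * qk 0 y := by
  unfold bump
  split_ifs with h
  · rw [h, Pool.Agent.Helper24.UG.qk_zero_zero]
    norm_num
  · have h1 := Pool.Agent.Helper24.UG.qk_closed y
    have h2 : y ^ 3 ≠ 0 := pow_ne_zero 3 h
    rw [div_eq_iff h2]
    linarith

lemma phi_eq (κ R L : ℝ) (n : ℕ) : ∀ x : ℝ, phi κ R L n x = ph κ R L n x := by
  induction n with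
  | zero =>
    intro x
    rw [Pool.Agent.Helper57.NW.ph_zero]
    show (∑ j ∈ scales κ R L, bump (2 * Real.pi * x / (1 + κ) ^ j)) / (scales κ R L).card = _
    rw [show scales κ R L = Sc κ R L from rfl]
    simp only [bump_eq]
    rw [← Finset.mul_sum]
    ring
  | succ n ih =>
    intro x
    rw [Pool.Agent.Helper57.NW.ph_succ, ← ih, ← ih]
    rfl

lemma mass_eq (δ R L : ℝ) : constant δ R L = Aw (δ / 32) R L (steps δ) := by
  unfold constant Aw weight
  simp only [phi_eq]

open Classical in
lemma out_eq {κ T R L t : ℝ} {n : ℕ} {W : Set ℝ} (hT : 1 < T) :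
    ∑' ρ : ZS, mx ρ * (if |(ρ : ℂ).im - t| ≤ L * sp T ∧ ((ρ : ℂ).im - t) / sp T ∉ W then
      ph κ R L n (((ρ : ℂ).im - t) / sp T) else 0) = outside (phi κ R L n) T L t W := by
  have hs : 0 < sp T := by
    unfold sp
    have := Real.log_pos hT
    positivity
  have hb : ∀ γ : ℝ, (|γ - t| ≤ L * sp T ∧ (γ - t) / sp T ∉ W) ↔ height T t γ ∈ Set.Icc (-L) L \ W := by
    intro γ
    rw [height_eq, Set.mem_sdiff, Set.mem_Icc, ← abs_le, abs_div, abs_of_pos hs, div_le_iff₀ hs]
  have hI : {γ : ℝ | height T t γ ∈ Set.Icc (-L) L \ W} ⊆ Icc (t - L * sp T) (t + L * sp T) := by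
    intro γ hγ
    have h1 := ((hb γ).2 hγ).1
    rw [abs_le] at h1
    exact ⟨by linarith [h1.1], by linarith [h1.2]⟩
  have hfin := Pool.Agent.Helper56.UG.fin_of hI
  have hfin' : {ρ : ℂ | IsNontrivialZero ρ ∧ height T t ρ.im ∈ Set.Icc (-L) L \ W}.Finite := hfin
  unfold outside
  rw [finsum_mem_eq_finite_toFinset_sum _ hfin']
  rw [tsum_eq_sum (s := hfin'.toFinset.subtype (fun ρ => xi ρ = 0))]
  · rw [Finset.sum_subtype_of_mem (f := fun ρ : ℂ => mx ρ * (if |ρ.im - t| ≤ L * sp T ∧ (ρ.im - t) / sp T ∉ W then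
      ph κ R L n ((ρ.im - t) / sp T) else 0))]
    · refine Finset.sum_congr rfl fun ρ hρ => ?_
      rw [Set.Finite.mem_toFinset] at hρ
      rw [if_pos ((hb ρ.im).2 hρ.2), height_eq, phi_eq]
      unfold mx
      rw [mult_eq hρ.1]
    · intro ρ hρ
      rw [Set.Finite.mem_toFinset] at hρ
      exact isNontrivialZero_iff.1 hρ.1
  · intro ρ hρ
    rw [Finset.mem_subtype, Set.Finite.mem_toFinset] at hρ
    rw [if_neg, mul_zero]
    intro h
    exact hρ ⟨isNontrivialZero_iff.2 ρ.2, (hb _).1 h⟩

lemma err_eq {δ T R L t : ℝ} {W : Set ℝ} (hT : 1 < T) :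
    err (weight δ R L) (constant δ R L) T L t W = |cnt T t W - prd (δ / 32) T R L (steps δ) t W| := by
  unfold err prd
  rw [out_eq hT, cnt_eq, mass_eq]
  rfl

lemma windowSum_one {T R t : ℝ} (hT : 1 < T) : windowSum (fun _ => 1) T R t = (inside T t (Icc (-R) R) : ℝ) := by
  have hs : 0 < sp T := by
    unfold sp
    have := Real.log_pos hT
    positivity
  have hI : {γ : ℝ | height T t γ ∈ Icc (-R) R} ⊆ Icc (t - R * sp T) (t + R * sp T) := by
    intro γ hγ
    have h1 : height T t γ ∈ Icc (-R) R := hγ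
    rw [height_eq, Set.mem_Icc, le_div_iff₀ hs, div_le_iff₀ hs] at h1
    exact ⟨by linarith [h1.1], by linarith [h1.2]⟩
  have hfin : {ρ : ℂ | IsNontrivialZero ρ ∧ height T t ρ.im ∈ Icc (-R) R}.Finite := Pool.Agent.Helper56.UG.fin_of hI
  unfold windowSum inside
  rw [finsum_mem_eq_finite_toFinset_sum _ hfin, finsum_mem_eq_finite_toFinset_sum _ hfin, Nat.cast_sum]
  simp only [mul_one]

lemma fails_eq {f : ℝ → ℝ} {a T R L ε : ℝ} (hT : 1 < T) : fails (fun _ => 1) f a T R L ε = {t : ℝ | T ≤ t ∧ t ≤ 2 * T ∧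
    ε < |cnt T t (Icc (-R) R) - (a - Pool.Agent.Helper57.OP.wsum f T L t (Icc (-R) R))|} := by
  ext t
  unfold fails outside Pool.Agent.Helper57.OP.wsum
  simp only [Set.mem_ofPred_eq, windowSum_one hT, cnt_eq, height_eq]

lemma some_eq {δ T R L e : ℝ} (hT : 1 < T) :
    someBad δ T R L e = {t : ℝ | T ≤ t ∧ t ≤ 2 * T ∧ Bad (δ / 32) T R L (steps δ) e t} := by
  ext t
  unfold someBad Bad
  simp only [Set.mem_ofPred_eq, err_eq hT]

lemma all_eq {δ T R L e : ℝ} (hT : 1 < T) : allBad δ T R L e = {t : ℝ | T ≤ t ∧ t ≤ 2 * T ∧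
    ∀ W : Set ℝ, W ⊆ Icc (-R) R → e < |cnt T t W - prd (δ / 32) T R L (steps δ) t W|} := by
  ext t
  unfold allBad
  simp only [Set.mem_ofPred_eq, err_eq hT]

lemma steps_le {δ : ℝ} (hδ : 0 < δ) : 1 ≤ δ / 32 * δ * (steps δ : ℝ) := by
  have h1 : 32 / δ ^ 2 ≤ (steps δ : ℝ) := Nat.le_ceil _
  have h2 : 0 < δ ^ 2 := by positivity
  rw [div_le_iff₀ h2] at h1
  nlinarith

/-- monotonicity in the constants -/
lemma comb {a a' C C' L e T X : ℝ} (ha : a ≤ a') (hC : C' ≤ C) (hL : 1 ≤ L) (hC' : 0 ≤ C') (hT : 0 ≤ T)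
    (h : X ≤ C' * L ^ (-(a' * e ^ 2)) * T) : X ≤ C * L ^ (-(a * e ^ 2)) * T := by
  refine h.trans (mul_le_mul_of_nonneg_right ?_ hT)
  refine mul_le_mul hC (Real.rpow_le_rpow_of_exponent_le hL ?_) (by positivity) (hC'.trans hC)
  have : a * e ^ 2 ≤ a' * e ^ 2 := mul_le_mul_of_nonneg_right ha (sq_nonneg e)
  linarith

/-- the same for the lower bound -/
lemma combl {a a' C C' L e T : ℝ} (ha : a' ≤ a) (hC : C' ≤ C) (hL : 1 ≤ L) (hC' : 0 < C') (hT : 0 ≤ T) :
    C⁻¹ * L ^ (-(a * e ^ 2)) * T ≤ 1 / C' * L ^ (-(a' * e ^ 2)) * T := by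
  refine mul_le_mul_of_nonneg_right ?_ hT
  rw [one_div]
  refine mul_le_mul (inv_anti₀ hC' hC) (Real.rpow_le_rpow_of_exponent_le hL ?_) (by positivity) (by positivity)
  have : a' * e ^ 2 ≤ a * e ^ 2 := mul_le_mul_of_nonneg_right ha (sq_nonneg e)
  linarith

lemma ratio_le {δ R L : ℝ} (hδ : 0 < δ) (hL : 1 ≤ L) (hR : 1 ≤ R) (hRL : R ≤ L ^ (1 - δ)) : 1 ≤ L / R := by
  rw [one_le_div (by linarith)]
  calc R ≤ L ^ (1 - δ) := hRL
    _ ≤ L ^ (1 : ℝ) := Real.rpow_le_rpow_of_exponent_le hL (by linarith)
    _ = L := Real.rpow_one L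

end conversion

/-- The exponent for the prediction with `φ` and `A`, in the whole range: it fails by more than `ε`, for every `W` and for
some `W`, on a set of `t` of measure `(R/L) ^ ((1 ± δ) ε ^ 2) T`, with the ordinates of `(R/L) ^ ((1 ± δ) ε ^ 2) T log T`
zeros. -/
theorem own_exact : ∀ δ : ℝ, 0 < δ → δ ≤ 1 → ∃ C T₀ : ℝ, 0 < C ∧ ∀ T R L ε : ℝ, T₀ ≤ T → C ≤ L → L ≤ Real.log T →
    1 ≤ R → R ≤ L ^ (1 - δ) → 0 < ε → ε ≤ 1 →
    ENNReal.ofReal (C⁻¹ * (L / R) ^ (-((1 + δ) * ε ^ 2)) * T) ≤ MeasureTheory.volume (allBad δ T R L ε) ∧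
    MeasureTheory.volume (someBad δ T R L ε) ≤ ENNReal.ofReal (C * (L / R) ^ (-((1 - δ) * ε ^ 2)) * T) ∧
    C⁻¹ * (L / R) ^ (-((1 + δ) * ε ^ 2)) * (T * Real.log T) ≤ zeroCount (allBad δ T R L ε) ∧
    (zeroCount (someBad δ T R L ε) : ℝ) ≤ C * (L / R) ^ (-((1 - δ) * ε ^ 2)) * (T * Real.log T) := by
  intro δ hδ hδ1
  have hk : 0 < δ / 32 := by positivity
  have hk1 : δ / 32 ≤ 1 / 32 := by linarith
  have hn := steps_le hδ
  obtain ⟨C0, T0, hC0, H0⟩ := Pool.Agent.Helper57.NW.final_low hk hk1 hδ hδ1 hn
  obtain ⟨C1, T1, hC1, H1⟩ := Pool.Agent.Helper57.NW.final_up hk hk1 hδ hδ1 hn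
  obtain ⟨C2, T2, hC2, H2⟩ := Pool.Agent.Helper57.NW.final_g hk hk1 hδ hδ1 hn
  obtain ⟨C3, T3, hC3, H3⟩ := Pool.Agent.Helper57.NW.final_glow hk hk1 hδ hδ1 hn
  refine ⟨max (max C3 C0) (max C1 C2), max (max T3 3) (max T0 (max T1 T2)),
    lt_max_of_lt_left (lt_max_of_lt_left (by linarith)), fun T R L e hT hL hLT hR hRL he he1 => ?_⟩
  have hT3' : T3 ≤ T := (le_max_left _ _).trans ((le_max_left _ _).trans hT)
  have hT3 : 3 ≤ T := (le_max_right _ _).trans ((le_max_left _ _).trans hT)
  have hT' := (le_max_right _ _).trans hT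
  have hT0 : T0 ≤ T := (le_max_left _ _).trans hT'
  have hT'' := (le_max_right _ _).trans hT'
  have hT1 : T1 ≤ T := (le_max_left _ _).trans hT''
  have hT2 : T2 ≤ T := (le_max_right _ _).trans hT''
  have hL3 : C3 ≤ L := (le_max_left _ _).trans ((le_max_left _ _).trans hL)
  have hL0 : C0 ≤ L := (le_max_right _ _).trans ((le_max_left _ _).trans hL)
  have hL' := (le_max_right _ _).trans hL
  have hL1 : C1 ≤ L := (le_max_left _ _).trans hL'
  have hL2 : C2 ≤ L := (le_max_right _ _).trans hL'
  have hL1' : 1 ≤ L := hC0.trans hL0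
  have hU : 1 ≤ L / R := ratio_le hδ hL1' hR hRL
  have hlog : 0 ≤ Real.log T := Real.log_nonneg (by linarith)
  rw [some_eq (by linarith : (1:ℝ) < T), all_eq (by linarith : (1:ℝ) < T)]
  refine ⟨?_, ?_, ?_, ?_⟩
  · refine le_trans (ENNReal.ofReal_le_ofReal ?_) (H0 T R L e hT0 hL0 hLT hR hRL he he1)
    exact combl (by linarith) ((le_max_right _ _).trans (le_max_left _ _)) hU (by linarith) (by linarith)
  · refine (H1 T R L e hT1 hL1 hLT hR hRL he he1).trans (ENNReal.ofReal_le_ofReal ?_)
    exact comb (by linarith) ((le_max_left _ _).trans (le_max_right _ _)) hU (by linarith) (by linarith) le_rfl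
  · refine le_trans ?_ (H3 T R L e hT3' hL3 hLT hR hRL he he1)
    exact combl (by linarith) ((le_max_left _ _).trans (le_max_left _ _)) hU (by linarith)
      (mul_nonneg (by linarith) hlog)
  · exact comb (by linarith) ((le_max_right _ _).trans (le_max_right _ _)) hU (by linarith)
      (mul_nonneg (by linarith) hlog) (H2 T R L e hT2 hL2 hLT hR hRL he he1)

/-- The `t` for which, for some `W ⊆ [-R, R]`, the number of the zeros in `W` is not the integer nearest to the
prediction. -/
def someWrong (δ T R L : ℝ) : Set ℝ :=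
  {t : ℝ | T ≤ t ∧ t ≤ 2 * T ∧ ∃ W ⊆ Set.Icc (-R) R,
    (inside T t W : ℤ) ≠ round (constant δ R L - outside (weight δ R L) T L t W)}

/-- The same for every `W ⊆ [-R, R]`. -/
def allWrong (δ T R L : ℝ) : Set ℝ :=
  {t : ℝ | T ≤ t ∧ t ≤ 2 * T ∧ ∀ W ⊆ Set.Icc (-R) R,
    (inside T t W : ℤ) ≠ round (constant δ R L - outside (weight δ R L) T L t W)}

/-- The nearest integer to the prediction is the number of the zeros in `W`, for all `W ⊆ [-R, R]` at once, outside a set
of measure `(R/L) ^ (1/4 - δ) T`, and on a set of measure `(R/L) ^ (1/4 + δ) T` it is wrong for every `W`; the same for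
the ordinates. -/
theorem determined : ∀ δ : ℝ, 0 < δ → δ ≤ 1 → ∃ C T₀ : ℝ, 0 < C ∧ ∀ T R L : ℝ, T₀ ≤ T → C ≤ L → L ≤ Real.log T →
    1 ≤ R → R ≤ L ^ (1 - δ) →
    ENNReal.ofReal (C⁻¹ * (L / R) ^ (-(1 / 4 + δ)) * T) ≤ MeasureTheory.volume (allWrong δ T R L) ∧
    MeasureTheory.volume (someWrong δ T R L) ≤ ENNReal.ofReal (C * (L / R) ^ (-(1 / 4 - δ)) * T) ∧
    C⁻¹ * (L / R) ^ (-(1 / 4 + δ)) * (T * Real.log T) ≤ zeroCount (allWrong δ T R L) ∧
    (zeroCount (someWrong δ T R L) : ℝ) ≤ C * (L / R) ^ (-(1 / 4 - δ)) * (T * Real.log T) := by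
  intro δ hδ hδ1
  obtain ⟨C, T₀, hC, H⟩ := own_exact δ hδ hδ1
  refine ⟨max C 1, max T₀ 3, lt_max_of_lt_left hC, fun T R L hT hL hLT hR hRL => ?_⟩
  have hT0 : T₀ ≤ T := (le_max_left _ _).trans hT
  have hT3 : 3 ≤ T := (le_max_right _ _).trans hT
  have hL0 : C ≤ L := (le_max_left _ _).trans hL
  have hL1 : 1 ≤ L := (le_max_right _ _).trans hL
  have hU : 1 ≤ L / R := ratio_le hδ hL1 hR hRL
  have hlog : 0 ≤ Real.log T := Real.log_nonneg (by linarith)
  obtain ⟨h1, -, h1', -⟩ := H T R L (1 / 2) hT0 hL0 hLT hR hRL (by norm_num) (by norm_num)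
  have he : 0 < (1 - δ / 2) / 2 := by linarith
  obtain ⟨-, h2, -, h3⟩ := H T R L ((1 - δ / 2) / 2) hT0 hL0 hLT hR hRL he (by linarith)
  have hsub : allBad δ T R L (1 / 2) ⊆ allWrong δ T R L := by
    intro t ht
    refine ⟨ht.1, ht.2.1, fun W hW h4 => ?_⟩
    have h5 := ht.2.2 W hW
    unfold err at h5
    have h6 := abs_sub_round (constant δ R L - outside (weight δ R L) T L t W)
    rw [← h4, abs_sub_comm] at h6
    push_cast at h6
    linarith
  have hsub2 : someWrong δ T R L ⊆ someBad δ T R L ((1 - δ / 2) / 2) := by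
    intro t ht
    obtain ⟨W, hW, h4⟩ := ht.2.2
    refine ⟨ht.1, ht.2.1, W, hW, ?_⟩
    by_contra h5
    refine h4 ?_
    unfold err at h5
    rw [not_lt, abs_le] at h5
    rw [round_eq, eq_comm, Int.floor_eq_iff]
    push_cast
    constructor <;> linarith [h5.1, h5.2]
  have hexp : 1 / 4 - δ ≤ (1 - δ) * ((1 - δ / 2) / 2) ^ 2 := by nlinarith [sq_nonneg δ, mul_pos hδ hδ]
  have hpow : (L / R) ^ (-((1 - δ) * ((1 - δ / 2) / 2) ^ 2)) ≤ (L / R) ^ (-(1 / 4 - δ)) :=
    Real.rpow_le_rpow_of_exponent_le hU (by linarith)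
  have hT' : 0 ≤ T := by linarith
  have hup : ∀ Y : ℝ, 0 ≤ Y →
      C * (L / R) ^ (-((1 - δ) * ((1 - δ / 2) / 2) ^ 2)) * Y ≤ max C 1 * (L / R) ^ (-(1 / 4 - δ)) * Y :=
    fun Y hY => mul_le_mul_of_nonneg_right
      (mul_le_mul (le_max_left _ _) hpow (Real.rpow_nonneg (by linarith) _) (by positivity)) hY
  have hlo : ∀ Y : ℝ, 0 ≤ Y →
      (max C 1)⁻¹ * (L / R) ^ (-(1 / 4 + δ)) * Y ≤ C⁻¹ * (L / R) ^ (-((1 + δ) * (1 / 2) ^ 2)) * Y := by
    intro Y hY
    refine mul_le_mul_of_nonneg_right ?_ hY
    refine mul_le_mul (inv_anti₀ hC (le_max_left _ _)) (Real.rpow_le_rpow_of_exponent_le hU ?_)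
      (Real.rpow_nonneg (by linarith) _) (by positivity)
    nlinarith
  refine ⟨?_, ?_, ?_, ?_⟩
  · exact le_trans (ENNReal.ofReal_le_ofReal (hlo T hT')) (h1.trans (MeasureTheory.measure_mono hsub))
  · exact (MeasureTheory.measure_mono hsub2).trans (h2.trans (ENNReal.ofReal_le_ofReal (hup T hT')))
  · refine ((hlo _ (mul_nonneg hT' hlog)).trans h1').trans ?_
    exact_mod_cast Pool.Agent.Helper56.UG.zc_mono hsub (a := T) (b := 2 * T) fun t ht => ⟨ht.1, ht.2.1⟩
  · refine le_trans ?_ (h3.trans (hup _ (mul_nonneg hT' hlog)))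
    exact_mod_cast Pool.Agent.Helper56.UG.zc_mono hsub2 (a := T) (b := 2 * T) fun t ht => ⟨ht.1, ht.2.1⟩

/-- The pair sum with the weight `φ`, at each zero: for all but few ordinates `γ` the sum of `φ` over the heights of the
other ordinates is `A - m`, up to `ε`, where `m` is the number of the zeros with ordinate `γ`. -/
theorem each_zero : ∀ δ : ℝ, 0 < δ → δ ≤ 1 → ∃ C T₀ : ℝ, 0 < C ∧ ∀ T R L ε : ℝ, T₀ ≤ T → C ≤ L → L ≤ Real.log T →
    1 ≤ R → R ≤ L ^ (1 - δ) → 0 < ε → ε ≤ 1 →
    ∃ E ⊆ Set.Icc T (2 * T), (zeroCount E : ℝ) ≤ C * (L / R) ^ (-((1 - δ) * ε ^ 2)) * (T * Real.log T) ∧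
    ∀ γ : ℝ, T ≤ γ → γ ≤ 2 * T → γ ∉ E → |outside (weight δ R L) T L γ {0} -
      (constant δ R L - inside T γ {0})| ≤ ε := by
  intro δ hδ hδ1
  obtain ⟨C, T₀, hC, H⟩ := own_exact δ hδ hδ1
  refine ⟨C, T₀, hC, fun T R L e hT hL hLT hR hRL he he1 =>
    ⟨someBad δ T R L e, fun t ht => ⟨ht.1, ht.2.1⟩, (H T R L e hT hL hLT hR hRL he he1).2.2.2, fun t ht1 ht2 ht => ?_⟩⟩
  by_contra h4
  refine ht ⟨ht1, ht2, {0}, ?_, ?_⟩
  · intro x hx
    rw [Set.mem_singleton_iff] at hx
    rw [hx]
    exact ⟨by linarith, by linarith⟩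
  · rw [not_le] at h4
    unfold err
    rwa [show (inside T t {0} : ℝ) - (constant δ R L - outside (weight δ R L) T L t {0}) =
      outside (weight δ R L) T L t {0} - (constant δ R L - inside T t {0}) by ring]

/-- **What the zeros outside of a window predict**: the least failure probability of a linear prediction of the number of the
zeros in the window is `(R/L) ^ ((1 + o(1)) ε ^ 2)`; for every other sum `∑ g(height / R)` over the window the exponent
is `0`. -/
theorem result : ∀ δ : ℝ, 0 < δ → δ ≤ 1 →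
    (∃ c C T₀ : ℝ, 0 < c ∧ 0 < C ∧ 0 < T₀ ∧ ∀ T R L ε : ℝ, T₀ ≤ T → C ≤ L → L ≤ Real.log T → 1 ≤ R → R ≤ L ^ (1 - δ) →
      0 < ε → ε ≤ 1 →
      (IsWeight c L (weight δ R L) ∧
        MeasureTheory.volume (someBad δ T R L ε) ≤ ENNReal.ofReal (C * (L / R) ^ (-((1 - δ) * ε ^ 2)) * T) ∧
        (zeroCount (someBad δ T R L ε) : ℝ) ≤ C * (L / R) ^ (-((1 - δ) * ε ^ 2)) * (T * Real.log T)) ∧
      (L ^ δ ≤ R → L ≤ Real.log T ^ (1 - δ) → δ ≤ ε → ∀ (f : ℝ → ℝ) (a : ℝ), IsWeight c L f →
        ENNReal.ofReal ((L / R) ^ (-((1 + δ) * ε ^ 2)) * T) ≤ MeasureTheory.volume (fails (fun _ => 1) f a T R L ε))) ∧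
    ∀ g : ℝ → ℝ, BoundedVariationOn g (Set.Icc (-1) 1) →
      (¬ ∃ b : ℝ, ∀ᵐ x ∂(MeasureTheory.volume.restrict (Set.Icc (-1 : ℝ) 1)), g x = b) →
      ∃ c C T₀ : ℝ, 0 < c ∧ 0 < C ∧ 0 < T₀ ∧ ∀ T R L : ℝ, T₀ ≤ T → C ≤ L → L ≤ Real.log T ^ (1 - δ) →
        L ^ δ ≤ R → R ≤ L ^ (1 - δ) → ∀ (f : ℝ → ℝ) (a : ℝ), IsWeight c L f →
        ENNReal.ofReal ((L / R) ^ (-δ) * T) ≤ MeasureTheory.volume (fails g f a T R L (1 / δ)) := by
  intro δ hδ hδ1
  refine ⟨?_, fun g hg hgc => ?_⟩
  · obtain ⟨C0, T0, hC0, H0⟩ := own_exact δ hδ hδ1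
    obtain ⟨c, C1, T1, hc, hC1, H1⟩ := Pool.Agent.Helper57.OP.bv_of_core Pool.Agent.Helper57.OP.core δ hδ hδ1
    obtain ⟨B, C2, hB, hC2, H2⟩ := Pool.Agent.Helper57.OP.ph_bv (k := δ / 32) (by positivity) (by linarith) hδ hδ1 (steps δ)
    refine ⟨c, max (max C0 C1) (max C2 (B ^ (1 / c))), max (max T0 3) T1, hc, lt_max_of_lt_left (lt_max_of_lt_left hC0),
      lt_max_of_lt_left (lt_max_of_lt_right (by norm_num)), fun T R L ε hT hL hLT hR hRL hε hε1 => ?_⟩
    have hT0 : T0 ≤ T := (le_max_left _ _).trans ((le_max_left _ _).trans hT)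
    have hT3 : 3 ≤ T := (le_max_right _ _).trans ((le_max_left _ _).trans hT)
    have hT1 : T1 ≤ T := (le_max_right _ _).trans hT
    have hL0 : C0 ≤ L := (le_max_left _ _).trans ((le_max_left _ _).trans hL)
    have hL1 : C1 ≤ L := (le_max_right _ _).trans ((le_max_left _ _).trans hL)
    have hL2 : C2 ≤ L := (le_max_left _ _).trans ((le_max_right _ _).trans hL)
    have hL3 : B ^ (1 / c) ≤ L := (le_max_right _ _).trans ((le_max_right _ _).trans hL)
    have hL1' : 1 ≤ L := hC1.trans hL1
    have hlog : 0 ≤ Real.log T := by linarith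
    have hT' : 0 ≤ T := by linarith
    have hBc : B ≤ L ^ c := by
      calc B = (B ^ (1 / c)) ^ c := by
            rw [← Real.rpow_mul (by linarith), one_div_mul_cancel hc.ne', Real.rpow_one]
        _ ≤ L ^ c := Real.rpow_le_rpow (by positivity) hL3 hc.le
    obtain ⟨h3, h4⟩ := H2 R L hL2 hR hRL
    obtain ⟨-, h5, -, h6⟩ := H0 T R L ε hT0 hL0 hLT hR hRL hε hε1
    have hph : weight δ R L = Pool.Agent.Helper57.NW.ph (δ / 32) R L (steps δ) := by
      funext x
      exact phi_eq _ _ _ _ x
    have hU : 1 ≤ L / R := ratio_le hδ hL1' hR hRL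
    have hCC : C0 ≤ max (max C0 C1) (max C2 (B ^ (1 / c))) := (le_max_left _ _).trans (le_max_left _ _)
    have hmon : ∀ Y : ℝ, 0 ≤ Y → C0 * (L / R) ^ (-((1 - δ) * ε ^ 2)) * Y ≤
        max (max C0 C1) (max C2 (B ^ (1 / c))) * (L / R) ^ (-((1 - δ) * ε ^ 2)) * Y := fun Y hY =>
      mul_le_mul_of_nonneg_right (mul_le_mul_of_nonneg_right hCC (Real.rpow_nonneg (by linarith) _)) hY
    refine ⟨⟨⟨fun x _ => ?_, ?_⟩, ?_, ?_⟩, fun hR2 hL4 hε2 f a hf => ?_⟩
    · rw [hph]
      exact (h3 x).trans hBc
    · rw [hph]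
      exact h4.trans (ENNReal.ofReal_le_ofReal hBc)
    · exact h5.trans (ENNReal.ofReal_le_ofReal (hmon _ hT'))
    · exact h6.trans (hmon _ (mul_nonneg hT' hlog))
    · rw [fails_eq (by linarith)]
      exact H1 T hT1 L hL1 hL4 R hR2 hRL ε hε2 hε1 f a hf.1 hf.2
  · obtain ⟨c, C, T₀, hc, hC, H⟩ := Pool.Agent.Helper57.TL.tol g hg hgc δ hδ hδ1
    refine ⟨c, C, max T₀ 3, hc, by linarith, lt_max_of_lt_right (by norm_num), fun T R L hT hL hLT hR hRL f a hf => ?_⟩
    have h := H T R L ((le_max_left _ _).trans hT) hL ⟨hLT, hR, hRL⟩ f a hf.1 hf.2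
    unfold fails windowSum outside
    simp only [height_eq]
    exact h

end Pool.Agent.Results.MP_8958e8_nt.NumberRigidity
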