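import Pool.Agent.Helper57.M.H

open Filter Topology MeasureTheory Set
open Pool.Agent.Helper57.PC

namespace Pool.Agent.Results.MP_8958e8_nt.NumberVariance

/-- Unconditional number variance of the ordinates of the zeros of zeta, in terms of pair counts,
uniformly up to a power of `T`, with the saturation term. With `S = T log T/(2π)` and
`A_T = ∫_0^T log²(t/2π) dt / (T log² T)`: for `T ≥ T₀` and `0 < X ≤ T^(1/200)`, the
integral over `β ∈ [0, X]` of the number of pairs with `|γ₁ - γ₂| log T/(2π) ≤ β`, that is the sum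
of `(X - |u|)₊` over all pairs with scaled difference `u`, is
`(A_T X² + π⁻² (log log T - log |ζ(1 + 1/log T + 2πiX/log T)|) + O(1)) S`. -/
theorem result : ∃ C T₀ : ℝ, 0 < C ∧ ∀ T : ℝ, T₀ ≤ T → ∀ X : ℝ, 0 < X → X ≤ T ^ (1/200 : ℝ) →
    |(∫ β in (0:ℝ)..X, pairCount T (-β) β) - (T * Real.log T / (2 * Real.pi)) *
        ((∫ t in (0:ℝ)..T, Real.log (t / (2 * Real.pi)) ^ 2) / (T * Real.log T ^ 2) * X ^ 2 +
          (Real.log (Real.log T) - Real.log ‖riemannZeta
            (1 + 1 / Real.log T + 2 * Real.pi * X / Real.log T * Complex.I)‖) / Real.pi ^ 2)| ≤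
      C * (T * Real.log T / (2 * Real.pi)) :=
  Pool.Agent.Helper57.UB.berry

end Pool.Agent.Results.MP_8958e8_nt.NumberVariance
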