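import Pool.Agent.Helper6.HM.Final3
import Pool.Agent.Helper57.WN.Long

open Filter Topology
open Pool.Agent.Helper57.PC

namespace Pool.Agent.Results.MP_8958e8_nt.PairsInEveryWindow

/-- The simple zeros of zeta on the critical line with ordinate in `[0,T]`. -/
def simpleCriticalZeros (T : ℝ) : Set ℂ := {ρ | ρ ∈ zerosUpTo T ∧ ρ.re = 1 / 2 ∧ mult ρ = 1}

/-- `Ns(T;α,β)`: the number of ordered pairs of simple zeros on the critical line with ordinates `γ`, `γ'` in `[0,T]` and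
`α < (γ - γ') log T / 2π < β`. -/
noncomputable def simplePairs (T α β : ℝ) : ℕ :=
  {p : ℂ × ℂ | p.1 ∈ simpleCriticalZeros T ∧ p.2 ∈ simpleCriticalZeros T ∧
    (p.1.im - p.2.im) * Real.log T / (2 * Real.pi) ∈ Set.Ioo α β}.ncard

/-- the choice of the constants as functions of the length -/
lemma choice {L₀ : ℕ → ℝ} {P : ℕ → ℝ → Prop} {η : ℕ → ℝ} (hη : ∀ n, 0 < η n) (hanti : Antitone η) (hlim : Tendsto η atTop (𝓝 0)) :
    ∃ (c : ℝ → ℝ) (g : ℝ → ℕ), Tendsto c atTop (𝓝 (1 / 3)) ∧ (∀ L, 1 / 100 ≤ c L) ∧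
      ∀ L, c L = 1 / 100 ∨ (L₀ (g L) ≤ L ∧ (c L = 1 / 100 ∨ c L = 1 / 3 - η (g L))) := by
  classical
  let g : ℝ → ℕ := fun L => Nat.findGreatest (fun n => L₀ n ≤ L) ⌊L⌋₊
  let c : ℝ → ℝ := fun L => if g L = 0 then 1 / 100 else max (1 / 100) (1 / 3 - η (g L))
  refine ⟨c, g, ?_, ?_, ?_⟩
  · rw [Metric.tendsto_atTop]
    intro ε hε
    obtain ⟨n, hn1, hn2⟩ := ((hlim.eventually (gt_mem_nhds hε)).and (eventually_ge_atTop 1)).exists
    refine ⟨max (L₀ n) (max n 1), fun L hL => ?_⟩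
    have h1 : L₀ n ≤ L := (le_max_left _ _).trans hL
    have h2 : (n : ℝ) ≤ L := ((le_max_left _ _).trans (le_max_right _ _)).trans hL
    have h3 : n ≤ g L := Nat.le_findGreatest (Nat.le_floor h2) h1
    have h4 : g L ≠ 0 := by omega
    have h5 : η (g L) ≤ η n := hanti h3
    have h6 := hη (g L)
    have h7 : c L = max (1 / 100) (1 / 3 - η (g L)) := if_neg h4
    rw [Real.dist_eq, h7, abs_lt]
    constructor
    · have := le_max_right (1 / 100) (1 / 3 - η (g L))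
      linarith
    · have : max (1 / 100) (1 / 3 - η (g L)) ≤ 1 / 3 := max_le (by norm_num) (by linarith)
      linarith
  · intro L
    show 1 / 100 ≤ (if g L = 0 then 1 / 100 else max (1 / 100) (1 / 3 - η (g L)) : ℝ)
    split_ifs
    · exact le_refl _
    · exact le_max_left _ _
  · intro L
    by_cases h : g L = 0
    · left
      exact if_pos h
    · right
      have h7 : c L = max (1 / 100) (1 / 3 - η (g L)) := if_neg h
      refine ⟨Nat.findGreatest_of_ne_zero (P := fun n => L₀ n ≤ L) (n := ⌊L⌋₊) rfl h, ?_⟩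
      rcases max_choice (1 / 100) (1 / 3 - η (g L)) with h8 | h8
      · left; rw [h7, h8]
      · right; rw [h7, h8]

/-- Pair correlation from below in every window, without any hypothesis; `S = T log T / 2π`. There is a function `c` on
`[7/5, ∞)` with `c ≥ 1/100` and `c(L) → 1/3` for `L → ∞` such that for every `L ≥ 7/5` and all large `T` every window
`(α, β)` with `0 ≤ α`, `β - α ≥ L`, `β ≤ κ(L) S` contains at least `c(L) (β - α) S` of the differences of the simple zeros on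
the critical line. -/
theorem result : ∃ c : ℝ → ℝ, Tendsto c atTop (𝓝 (1 / 3)) ∧ ∀ L : ℝ, 7 / 5 ≤ L → 1 / 100 ≤ c L ∧
    ∃ κ T₀ : ℝ, 0 < κ ∧ ∀ T : ℝ, T₀ ≤ T → ∀ α β : ℝ, 0 ≤ α → α + L ≤ β → β ≤ κ * (T * Real.log T / (2 * Real.pi)) →
      c L * (β - α) * (T * Real.log T / (2 * Real.pi)) ≤ simplePairs T α β := by
  obtain ⟨T₁, h1⟩ := Pool.Agent.Helper6.HM.final3
  have hη : ∀ n : ℕ, (0:ℝ) < 1 / ((n : ℝ) + 1) := fun n => by positivity
  choose L₀ κ₀ T₀ hκ₀ h3 using fun n : ℕ => Pool.Agent.Helper57.WN.long_windows (hη n)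
  obtain ⟨c, g, hc, hc1, hc2⟩ := choice (L₀ := L₀) (P := fun _ _ => True) hη
    (fun a b hab => by
      have : (a : ℝ) ≤ b := by exact_mod_cast hab
      show 1 / ((b : ℝ) + 1) ≤ 1 / ((a : ℝ) + 1)
      gcongr) tendsto_one_div_add_atTop_nhds_zero_nat
  refine ⟨c, hc, fun L hL => ⟨hc1 L, ?_⟩⟩
  have hA : ∀ T : ℝ, max T₁ 3 ≤ T → ∀ α β : ℝ, 0 ≤ α → α + L ≤ β → β ≤ 1 / 1000 * (T * Real.log T / (2 * Real.pi)) →
      1 / 100 * (β - α) * (T * Real.log T / (2 * Real.pi)) ≤ simplePairs T α β := by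
    intro T hT α β hα hαβ hβ
    have := (h1 T ((le_max_left _ _).trans hT) α β hα (by linarith) (by linarith)).1
    have e : 1 / 100 * (β - α) * (T * Real.log T / (2 * Real.pi)) = (β - α) / 100 * (T * Real.log T / (2 * Real.pi)) := by ring
    rw [e]
    exact this
  rcases hc2 L with h | ⟨hL0, h | h⟩
  · rw [h]
    exact ⟨1 / 1000, max T₁ 3, by norm_num, hA⟩
  · rw [h]
    exact ⟨1 / 1000, max T₁ 3, by norm_num, hA⟩
  · rw [h]
    refine ⟨κ₀ (g L), T₀ (g L), hκ₀ _, fun T hT α β hα hαβ hβ => h3 (g L) T hT α β hα (by linarith) hβ⟩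

end Pool.Agent.Results.MP_8958e8_nt.PairsInEveryWindow
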