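import Pool.Agent.Helper6.HM.Final3
import Pool.Agent.Helper57.WN.BE
import Pool.Agent.Helper57.WN.Long

open Pool.Agent.Helper57.PC

namespace Pool.Agent.Results.MP_8958e8_nt.PairsInEveryWindow

/-- The simple zeros of zeta on the critical line with ordinate in `[0,T]`. -/
def simpleCriticalZeros (T : ℝ) : Set ℂ := {ρ | ρ ∈ zerosUpTo T ∧ ρ.re = 1 / 2 ∧ mult ρ = 1}

/-- `Ns(T;α,β)`: the number of ordered pairs of simple zeros on the critical line with ordinates `γ`, `γ'` in `[0,T]` and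
`α < (γ - γ') log T / 2π < β`. -/
noncomputable def simplePairs (T α β : ℝ) : ℕ :=
  {p : ℂ × ℂ | p.1 ∈ simpleCriticalZeros T ∧ p.2 ∈ simpleCriticalZeros T ∧
    (p.1.im - p.2.im) * Real.log T / (2 * Real.pi) ∈ Set.Ioo α β}.ncard

/-- Montgomery's pair count in windows, without any hypothesis; `S = T log T / 2π`. (i) Every window of length at least `7/5`,
at every distance up to a constant times `T`, contains at least `(β - α) S / 100` of the differences of the simple zeros
on the critical line. (ii) `N(T;α,β) = (β - α) S + O(S)` for `0 ≤ α ≤ β ≤ log T`. (iii) For every `η > 0`, every long window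
(length at least `L(η)`, `β ≤ κ(η) S`) contains at least `(1/3 - η) (β - α) S` of the differences of the simple zeros on the line. -/
theorem result : (∃ C T₀ : ℝ, ∀ T : ℝ, T₀ ≤ T →
    (∀ α β : ℝ, 0 ≤ α → α + 7 / 5 ≤ β → β ≤ T * Real.log T / (2 * Real.pi) / 1000 →
      (β - α) / 100 * (T * Real.log T / (2 * Real.pi)) ≤ simplePairs T α β ∧
        (simplePairs T α β : ℝ) ≤ pairCount T α β) ∧
    (∀ α β : ℝ, 0 ≤ α → α ≤ β → β ≤ Real.log T →
      |pairCount T α β - (β - α) * (T * Real.log T / (2 * Real.pi))| ≤ C * (T * Real.log T / (2 * Real.pi)))) ∧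
    ∀ η : ℝ, 0 < η → ∃ L κ T₀ : ℝ, 0 < κ ∧ ∀ T : ℝ, T₀ ≤ T → ∀ α β : ℝ, 0 ≤ α → α + L ≤ β →
      β ≤ κ * (T * Real.log T / (2 * Real.pi)) →
      (1 / 3 - η) * (β - α) * (T * Real.log T / (2 * Real.pi)) ≤ simplePairs T α β := by
  obtain ⟨T₁, h1⟩ := Pool.Agent.Helper6.HM.final3
  obtain ⟨C, T₂, -, h2⟩ := Pool.Agent.Helper57.WN.bounded
  refine ⟨⟨C, max T₁ T₂, fun T hT => ⟨h1 T ((le_max_left _ _).trans hT), h2 T ((le_max_right _ _).trans hT)⟩⟩, ?_⟩
  exact fun η hη => Pool.Agent.Helper57.WN.long_windows hη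

end Pool.Agent.Results.MP_8958e8_nt.PairsInEveryWindow
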