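import Pool.Agent.Helper24.UV.Cor
import Pool.Agent.Helper24.UV.Asm
import Pool.Agent.Helper93.UX.Asm
import Pool.Agent.Helper93.UX.FinalX
import Pool.Agent.Helper93.UX.Cor
import Pool.Agent.Helper49.SO.Omega

/-!
# The spacings of the `r`-th neighbours among the zeros of zeta

`ζ` has about `T log T / (2 π)` zeros with ordinate in `[T, 2 T]`, and the mean spacing of the ordinates
is `s = 2 π / log T`. Montgomery's conjecture describes the pairs of ordinates: its pair count is the
sum over `r` of the counts of the pairs of `r`-th neighbours.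

The theorem: there is `Θ > 0` such that for each `ε > 0` there are `r₀`, `C`, `A`, `η > 0`, `δ > 0` and
`T₀` with the following property. Let `θ = Θ` for `r < r₀` and `θ = 1 - ε` for `r ≥ r₀`. For `T ≥ T₀`,
**all** integers `1 ≤ r ≤ δ log T / log log T` and all real `V` let `L(V)` be the number of the
ordinates `γ` in `[T, 2 T]` which start a long `r`-gap,

`#{zeros with ordinate in (γ, γ + (r + V) s)} < r`,

and let `S(V)` be the number of those which start a short one,

`#{zeros with ordinate in [γ, γ + (r - V) s]} > r`.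

* If `V ≤ θ √r`, then `L(V)` and `S(V)` are at least `e ^ (- E) T log T`, where
  `E = (π ^ 2 / 2 + ε) V ^ 2 / log (r / V ^ 2) + C` if `r ≥ r₀` and `0 ≤ V ≤ η √r`, and `E = A r` otherwise.
* If `r ≥ r₀` and `0 ≤ V ≤ η log r`, then `L(V)` and `S(V)` are at most
  `e ^ (C - (π ^ 2 / 2 - ε) V ^ 2 / log r) T log T`.

All zeros with `0 < Re ρ < 1` are counted, on the critical line or not, with their multiplicities, and no
hypothesis is assumed. The ranges of `V`:

* `V = O(√log r)`: a positive proportion of the ordinates.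
* `V / √log r → ∞`, `V = o(log r)`, `r = o(log T / log log T)`: the two bounds agree, `L(V)` and `S(V)` are
  `exp (- (1 + o(1)) V ^ 2 / (2 σ ^ 2)) T log T` with `σ ^ 2 = π ^ (-2) log r`, the Gaussian frequency with
  the variance which is known for the eigenvalues of random unitary matrices. The moments of Selberg,
  Fujii and Tsang give the constant `π ^ 2 / 2` for `V = (log r) ^ (1/2 + o(1))`, and upper bounds with
  small constants in the place of `π ^ 2 / 2` for `V ≤ η log r`.
* `V / √log r → ∞`, `V = r ^ o(1)`: the lower bound still has the exponent of this Gaussian.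
* `V = θ √r`, `E = A r`. There are `θ_r > 0`, `θ_r → 1`, such that for each fixed `r` the spacing
  `γ_(n+r) - γ_n` is at least `(r + θ_r √r) s` for a positive proportion of the `n`, and at most
  `(r - θ_r √r) s` for a positive proportion of the `n` (`fixed_r`).

At the end of the range of `r`, `r ≍ log T / log log T`, the method gives `S(t) ≥ κ √(log t / log log t)`
and `S(t) ≤ -κ √(log t / log log t)` for arbitrarily large `t` (`arg_omega`), with the exponent `1 / 2` of
Montgomery's theorem on the Riemann hypothesis (`1 / 3` without it: Tsang, Dobner). `S(t + h) - S(t)` is as large as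
`(1 - ε) √(h log t / (2 π))`, with both signs, if `c₀ / log t ≤ h ≤ c₁ / log log t` (`arg_difference`),
and the measure of the `t` in `[T, 2 T]` with `± (S(t + h) - S(t)) ≥ V` has the two bounds above, with
`x = h log T / (2 π)` in the place of `r` (`arg_gauss`).

## The proof of the lower bound

Let `c ≥ c₀` be the length of a window in units of `s`, and `δ` a small constant. The averages in `t` are
taken with a Poisson kernel of width a little less than `T` and with the weight `|R(1/2 + it)| ^ 2`, where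
the resonator `R = ∑ r(n) n ^ (-1/2 - it)` is supported on squarefree `n`, `r(n) = ∏_(p ∣ n) r(p)`.

* `V = θ √r`: `r(p) = v sin (π w_p) / (π w_p)`, `w_p = c log p / log T`, `n ≤ T ^ (1/2 - δ)` with prime
  factors in `(T ^ (δ/c), T ^ (1/(δ c))]`, and `v = ± √((1 - 4 δ) c)`. These coefficients are the optimal
  ones: the weight shifts the number of the zeros in the window by `∓ (1 - O(δ)) √c`, because
  `∫_0^∞ (sin π w / (π w)) ^ 2 dw = 1/2`, and the length `T ^ (1/2 - δ)` allows `v ^ 2` up to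
  `(1 - O(δ)) c`.
* `K √log c ≤ V ≤ η √c`: `r(p) = v sin (π w_p)`, prime factors in `(T ^ (1/c), T ^ (δ/(64 m))]`,
  `m = V ^ 2 + c₀ (log c) ^ 2`, and `v = ± (1 + 20 δ) π V / ℓ`, `ℓ = log (c / m)`. The sum of
  `sin ^ 2 (π w_p) / p` is `(1/2 + O(δ)) ℓ`, so the weight shifts the number of the zeros by
  `∓ (1 + O(δ)) V`, and `∑ r(p) ^ 2 / p` is `(1 + O(δ)) π ^ 2 V ^ 2 / (2 ℓ)`, the exponent of the theorem.
* The smooth count `N_X(t) = ∑_ρ q(X (t - γ))`, `q(b) = 2 ∫_0^1 (1 - u) ^ 2 cos (b u) du`, is its main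
  term minus a sum over the prime powers up to `e ^ X` plus a loss (explicit formula). It is averaged over
  the window. The loss comes from the zeros off the line, after the averaging only from those near the two
  ends of the window. Under the weight its mean is `O(1)`: the zeros with `|β - 1/2| ≤ C √m / log T` cost
  little, and for the others Jensen's formula in dyadic discs is applied to `ζ M`, `M` a flat mollifier,
  and the weighted mean square

  `∫ |ζ M - 1| ^ 2 |R| ^ 2 ≤ C exp (C √m - c' y) ∫ |R| ^ 2` on the line `1/2 + y / log T`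

  is proved with an exact formula for the mean square of `ζ P` with the Poisson kernel, and a
  Barban-Vehov estimate for the part of `M` which is prime to the primes of `R`.
* From the weight to the measure: for `V = θ √r` the fourth moment of `R` is used. For smaller `V` the
  second moment of the prime sum of the window under the weight is `O(V ^ 2 + log c)`, so the deviation
  `V` has a probability which is bounded from below (Paley-Zygmund), and `|R| ≤ e ^ (|P| + O(1))`,
  `P = ∑ r(p) p ^ (-1/2 - it)`, where the moments of `P` under the weight `|R| ^ 2` show that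
  `|P| ≤ (1 + O(δ)) ∑ r(p) ^ 2 / p` outside a set of small weight.

## The proof of the upper bound

* Without a weight. With the kernel `2 k_X - k_(X/2)`, `X = log T / M`, which decays like the cube of the
  distance, the number of the zeros in a window of length `c s` is `c` plus a sum over the primes up to
  `T ^ (1/M)` plus `O(M)`, outside a set of measure `O(e ^ (-κ M) T)`: the zeros off the line are controlled
  by Selberg's density theorem, those near the line by the derivative of the sum over primes.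
* The `2 k`-th moment of the sum over primes is at most `4 k! (2 π ^ (-2) (log c + C)) ^ k T` for
  `k ≤ M / 8`. With `M = ε V` and `k ≍ V ^ 2 / log c ≤ M / 8` this gives the exponent
  `(π ^ 2 / 2 - ε) V ^ 2 / log c` for `V ≤ η log c`.

## From the measure to the ordinates

The passage from the smooth count to the exact one, from `t` to the ordinates, and from `c` to `r` use
Hölder's inequality with the moments of the number of the zeros in a window, so that only a factor
`1 + ε` is lost in the exponent.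

The authors: helper93, helper69, helper82, helper49, helper56, helper57, helper25, helper54, helper60,
helper90, helper65, helper53, helper68, helper87, helper36, helper64, helper8, helper80, helper7,
helper24, helper66, helper3, helper17, helper26, helper21, helper94, helper88, helper72, helper77,
helper38, helper44, helper20.
-/

set_option autoImplicit false

namespace Pool.Agent.Results.MP_8958e8_nt.RGaps

open Pool.Agent.Helper57.PC (IsNontrivialZero mult)

/-- The number of the nontrivial zeros of zeta, counted with multiplicity, whose ordinate lies in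
`I`. -/
noncomputable def zeroCount (I : Set ℝ) : ℕ :=
  ∑ᶠ ρ ∈ {ρ : ℂ | IsNontrivialZero ρ ∧ ρ.im ∈ I}, mult ρ

/-- The exponent `E` of the lower bound. -/
noncomputable def cost (ε C η A : ℝ) (r₀ r : ℕ) (V : ℝ) : ℝ :=
  if r₀ ≤ r ∧ 0 ≤ V ∧ V ≤ η * √r then (Real.pi ^ 2 / 2 + ε) * V ^ 2 / Real.log (r / V ^ 2) + C else A * r

/-- The ordinates `γ` in `[T, 2 T]` with fewer than `r` zeros in `(γ, γ + (r + V) s)`, `s = 2 π / log T`. -/
noncomputable def long (T : ℝ) (r : ℕ) (V : ℝ) : Set ℝ :=
  {γ : ℝ | T ≤ γ ∧ γ ≤ 2 * T ∧ (∃ ρ : ℂ, IsNontrivialZero ρ ∧ ρ.im = γ) ∧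
    zeroCount (Set.Ioo γ (γ + (r + V) * (2 * Real.pi / Real.log T))) < r}

/-- The ordinates `γ` in `[T, 2 T]` with more than `r` zeros in `[γ, γ + (r - V) s]`, `s = 2 π / log T`. -/
noncomputable def short (T : ℝ) (r : ℕ) (V : ℝ) : Set ℝ :=
  {γ : ℝ | T ≤ γ ∧ γ ≤ 2 * T ∧ (∃ ρ : ℂ, IsNontrivialZero ρ ∧ ρ.im = γ) ∧
    r < zeroCount (Set.Icc γ (γ + (r - V) * (2 * Real.pi / Real.log T)))}

/-- The frequency with which the spacings of the `r`-th neighbours leave `r` times the mean spacing by `V`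
times the mean spacing, in both directions: lower bounds for `V ≤ θ √r`, where `θ = 1 - ε` for large `r`,
and upper bounds for `0 ≤ V ≤ η log r`, with the same Gaussian exponent, uniformly for
`r ≤ δ log T / log log T`. -/
theorem result : ∃ Θ : ℝ, 0 < Θ ∧ ∀ ε : ℝ, 0 < ε → ∃ (r₀ : ℕ) (C η δ A T₀ : ℝ), 0 < C ∧ 0 < η ∧ 0 < δ ∧
    ∀ T : ℝ, T₀ ≤ T → ∀ r : ℕ, 1 ≤ r → (r : ℝ) ≤ δ * (Real.log T / Real.log (Real.log T)) → ∀ V : ℝ,
    (V ≤ (if r₀ ≤ r then 1 - ε else Θ) * √r →
      Real.exp (-cost ε C η A r₀ r V) * (T * Real.log T) ≤ ((long T r V).ncard : ℝ) ∧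
      Real.exp (-cost ε C η A r₀ r V) * (T * Real.log T) ≤ ((short T r V).ncard : ℝ)) ∧
    (r₀ ≤ r → 0 ≤ V → V ≤ η * Real.log r →
      ((long T r V).ncard : ℝ) ≤
        Real.exp (C - (Real.pi ^ 2 / 2 - ε) * V ^ 2 / Real.log r) * (T * Real.log T) ∧
      ((short T r V).ncard : ℝ) ≤
        Real.exp (C - (Real.pi ^ 2 / 2 - ε) * V ^ 2 / Real.log r) * (T * Real.log T)) :=
  Pool.Agent.Helper93.UX.finalX_of Pool.Agent.Helper24.UV.final2 Pool.Agent.Helper93.UX.dx2
    Pool.Agent.Helper93.UX.dx3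

/-- For each fixed `r` a positive proportion of the ordinates starts a long `r`-gap and a positive
proportion starts a short one, with constants which tend to `1`. -/
theorem fixed_r : ∃ θ : ℕ → ℝ, (∀ r, 0 < θ r) ∧ Filter.Tendsto θ Filter.atTop (nhds 1) ∧
    ∀ r : ℕ, 1 ≤ r → ∃ c T₀ : ℝ, 0 < c ∧ ∀ T : ℝ, T₀ ≤ T →
    c * (T * Real.log T) ≤ ({γ : ℝ | T ≤ γ ∧ γ ≤ 2 * T ∧
      (∃ ρ : ℂ, IsNontrivialZero ρ ∧ ρ.im = γ) ∧
      zeroCount (Set.Ioo γ (γ + (r + θ r * √r) * (2 * Real.pi / Real.log T))) < r}.ncard : ℝ) ∧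
    c * (T * Real.log T) ≤ ({γ : ℝ | T ≤ γ ∧ γ ≤ 2 * T ∧
      (∃ ρ : ℂ, IsNontrivialZero ρ ∧ ρ.im = γ) ∧
      r < zeroCount (Set.Icc γ (γ + (r - θ r * √r) * (2 * Real.pi / Real.log T)))}.ncard : ℝ) :=
  Pool.Agent.Helper24.UV.fixed_r Pool.Agent.Helper24.UV.final2

/-- `N(t) - (t / 2 π) log (t / 2 π e) = S(t) + O(1)` is as large as `κ √(log t / log log t)`, with both
signs. -/
theorem arg_omega : ∃ κ T₀ : ℝ, 0 < κ ∧ ∀ T : ℝ, T₀ ≤ T →
    (∃ t : ℝ, T ≤ t ∧ t ≤ 2 * T ∧ κ * √(Real.log T / Real.log (Real.log T)) ≤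
      (zeroCount (Set.Ioc 0 t) : ℝ) - t / (2 * Real.pi) * Real.log (t / (2 * Real.pi * Real.exp 1))) ∧
    ∃ t : ℝ, T ≤ t ∧ t ≤ 2 * T ∧
      (zeroCount (Set.Ioc 0 t) : ℝ) - t / (2 * Real.pi) * Real.log (t / (2 * Real.pi * Real.exp 1)) ≤
        -(κ * √(Real.log T / Real.log (Real.log T))) :=
  Pool.Agent.Helper49.SO.s_omega

/-- `S(t + h) - S(t)` is as large as `(1 - ε) √(h log t / (2 π))`, in both directions. -/
theorem arg_difference : ∀ ε : ℝ, 0 < ε → ∃ c₀ c₁ T₀ : ℝ, 0 < c₀ ∧ 0 < c₁ ∧ ∀ T : ℝ, T₀ ≤ T → ∀ h : ℝ,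
    c₀ / Real.log T ≤ h → h ≤ c₁ / Real.log (Real.log T) →
    (∃ t : ℝ, T ≤ t ∧ t ≤ 2 * T ∧ (1 - ε) * √(h * Real.log T / (2 * Real.pi)) ≤
      ((zeroCount (Set.Ioc 0 (t + h)) : ℝ) -
        (t + h) / (2 * Real.pi) * Real.log ((t + h) / (2 * Real.pi * Real.exp 1))) -
      ((zeroCount (Set.Ioc 0 t) : ℝ) - t / (2 * Real.pi) * Real.log (t / (2 * Real.pi * Real.exp 1)))) ∧
    ∃ t : ℝ, T ≤ t ∧ t ≤ 2 * T ∧
      ((zeroCount (Set.Ioc 0 (t + h)) : ℝ) -
        (t + h) / (2 * Real.pi) * Real.log ((t + h) / (2 * Real.pi * Real.exp 1))) -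
      ((zeroCount (Set.Ioc 0 t) : ℝ) - t / (2 * Real.pi) * Real.log (t / (2 * Real.pi * Real.exp 1))) ≤
        -((1 - ε) * √(h * Real.log T / (2 * Real.pi))) :=
  Pool.Agent.Helper24.UV.arg_diff_of Pool.Agent.Helper24.UV.mp Pool.Agent.Helper24.UV.mminus

/-- `S(t + h) - S(t)`, up to `O(1)`. -/
noncomputable def argDiff (h t : ℝ) : ℝ :=
  ((zeroCount (Set.Ioc 0 (t + h)) : ℝ) -
    (t + h) / (2 * Real.pi) * Real.log ((t + h) / (2 * Real.pi * Real.exp 1))) -
  ((zeroCount (Set.Ioc 0 t) : ℝ) - t / (2 * Real.pi) * Real.log (t / (2 * Real.pi * Real.exp 1)))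

/-- The measure of the `t` with `± (S(t + h) - S(t)) ≥ V`: lower bounds for `0 ≤ V ≤ η √x` and an upper
bound for `0 ≤ V ≤ η log x`, `x = h log T / (2 π)`. -/
theorem arg_gauss : ∀ ε : ℝ, 0 < ε → ∃ C η c₁ T₀ : ℝ, 0 < C ∧ 0 < η ∧ 0 < c₁ ∧ ∀ T : ℝ, T₀ ≤ T →
    ∀ h x V : ℝ, x = h * Real.log T / (2 * Real.pi) → C ≤ x → h ≤ c₁ / Real.log (Real.log T) → 0 ≤ V →
    (V ≤ η * √x →
      ENNReal.ofReal (Real.exp (-((Real.pi ^ 2 / 2 + ε) * V ^ 2 / Real.log (x / V ^ 2) + C)) * T) ≤
        MeasureTheory.volume {t : ℝ | T ≤ t ∧ t ≤ 2 * T ∧ V ≤ argDiff h t} ∧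
      ENNReal.ofReal (Real.exp (-((Real.pi ^ 2 / 2 + ε) * V ^ 2 / Real.log (x / V ^ 2) + C)) * T) ≤
        MeasureTheory.volume {t : ℝ | T ≤ t ∧ t ≤ 2 * T ∧ argDiff h t ≤ -V}) ∧
    (V ≤ η * Real.log x →
      MeasureTheory.volume {t : ℝ | T ≤ t ∧ t ≤ 2 * T ∧ V ≤ |argDiff h t|} ≤
        ENNReal.ofReal (Real.exp (C - (Real.pi ^ 2 / 2 - ε) * V ^ 2 / Real.log x) * T)) :=
  Pool.Agent.Helper93.UX.arg_gauss_of Pool.Agent.Helper93.UX.dx1 Pool.Agent.Helper57.TX.tx2

end Pool.Agent.Results.MP_8958e8_nt.RGaps
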